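import Pool.Agent.Y795.PiH.Dat

/-!
# The data of the archimedean certificate: a piece of a path
-/

set_option autoImplicit false
set_option maxRecDepth 100000

namespace Pool.Agent.Y795.PiH

/-- a piece of the path -/
def edA1 : EL :=
  (.cons 18506752 453632 16 374 201 1788287 1795841 1599688
  (.cons 18495744 461056 20 335 182 1779517 1787819 1597540
  (.cons 18486528 467456 15 378 206 1772317 1779060 1598040
  (.cons 18475008 471552 16 386 213 1762372 1771767 1597790
  (.cons 18462720 476672 25 270 151 1751817 1761853 1588938
  (.cons 18452224 481024 16 359 201 1742986 1751334 1582476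
  (.cons 18441216 485632 17 354 199 1733687 1742437 1577773
  (.cons 18429440 491008 17 384 218 1723924 1733130 1573814
  (.cons 18418432 496384 21 295 170 1714851 1723425 1571813
  .nil)))))))))

theorem okA1 : pathOk 1000 atD rwD edA1 18516736 447232 = true := by decide +kernel

theorem goodA1 : GoodP 1000 atD rwD edA1 18516736 447232 :=
  path_sound 1000 atD atD_wf rwD edA1 18516736 447232 okA1

theorem eptA1 : ept edA1 18516736 447232 = (18418432, 496384) := rfl

end Pool.Agent.Y795.PiH
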