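import Pool.Agent.Y795.PiH.Dat

/-!
# The data of the archimedean certificate: a piece of a path
-/

set_option autoImplicit false
set_option maxRecDepth 100000

namespace Pool.Agent.Y795.PiH

/-- a piece of the path -/
def edA2 : EL :=
  (.cons 18407936 501504 17 347 201 1706342 1714388 1572470
  (.cons 18397696 506624 16 361 211 1698085 1705836 1574216
  (.cons 18386432 512768 28 233 140 1689093 1697670 1578473
  (.cons 18377472 517632 17 303 182 1682097 1688730 1582349
  (.cons 18373376 519936 7 339 204 1678933 1681666 1584513
  (.cons 18361856 521472 17 345 210 1668543 1678401 1584426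
  (.cons 18347264 523776 32 234 146 1655314 1668034 1576459
  (.cons 18336512 525568 16 344 213 1645785 1654811 1568374
  (.cons 18325248 527872 16 363 227 1635867 1645177 1563555
  .nil)))))))))

theorem okA2 : pathOk 1000 atD rwD edA2 18418432 496384 = true := by decide +kernel

theorem goodA2 : GoodP 1000 atD rwD edA2 18418432 496384 :=
  path_sound 1000 atD atD_wf rwD edA2 18418432 496384 okA2

theorem eptA2 : ept edA2 18418432 496384 = (18325248, 527872) := rfl

end Pool.Agent.Y795.PiH
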