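import Pool.Agent.Y795.PiH.Dat

/-!
# The data of the archimedean certificate: a piece of a path
-/

set_option autoImplicit false
set_option maxRecDepth 100000

namespace Pool.Agent.Y795.PiH

/-- a piece of the path -/
def edA3 : EL :=
  (.cons 18311168 530688 19 381 241 1623481 1635233 1560445
  (.cons 18296576 534016 21 360 231 1610774 1622855 1557409
  (.cons 18285568 536832 17 338 220 1601310 1610197 1557590
  (.cons 18274816 539648 27 209 139 1592030 1600866 1559393
  (.cons 18264832 542464 16 328 219 1583697 1591600 1562134
  (.cons 18254080 545536 16 353 238 1574681 1583154 1565776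
  (.cons 18242560 549120 22 278 192 1565067 1574184 1571172
  (.cons 18231808 552448 16 355 247 1556244 1564577 1576659
  .nil))))))))

theorem okA3 : pathOk 1000 atD rwD edA3 18325248 527872 = true := by decide +kernel

theorem goodA3 : GoodP 1000 atD rwD edA3 18325248 527872 :=
  path_sound 1000 atD atD_wf rwD edA3 18325248 527872 okA3

theorem eptA3 : ept edA3 18325248 527872 = (18231808, 552448) := rfl

end Pool.Agent.Y795.PiH
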