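import Pool.Agent.Y795.PiH.Dat

/-!
# The data of the archimedean certificate: a piece of a path
-/

set_option autoImplicit false
set_option maxRecDepth 100000

namespace Pool.Agent.Y795.PiH

/-- a piece of the path -/
def edA4 : EL :=
  (.cons 18220544 556288 17 354 250 1547087 1555699 1583995
  (.cons 18209536 560128 16 368 264 1538223 1546544 1591941
  (.cons 18198272 564224 17 356 260 1529231 1537684 1601065
  (.cons 18187264 568064 16 368 273 1520448 1528696 1609984
  (.cons 18176000 572416 21 291 221 1511583 1519966 1620814
  (.cons 18163456 577536 18 380 293 1502000 1511108 1634020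
  (.cons 18152704 581888 17 345 271 1493746 1501494 1645755
  (.cons 18142464 585984 17 328 263 1485919 1493276 1657094
  (.cons 18138624 587520 6 348 280 1483013 1485449 1661397
  (.cons 18134016 598528 17 354 290 1482773 1482945 1691978
  .nil))))))))))

theorem okA4 : pathOk 1000 atD rwD edA4 18231808 552448 = true := by decide +kernel

theorem goodA4 : GoodP 1000 atD rwD edA4 18231808 552448 :=
  path_sound 1000 atD atD_wf rwD edA4 18231808 552448 okA4

theorem eptA4 : ept edA4 18231808 552448 = (18134016, 598528) := rfl

end Pool.Agent.Y795.PiH
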