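import Pool.Agent.Y795.PiH.Dat

/-!
# The data of the archimedean certificate: a piece of a path
-/

set_option autoImplicit false
set_option maxRecDepth 100000

namespace Pool.Agent.Y795.PiH

/-- a piece of the path -/
def edA5 : EL :=
  (.cons 18128896 610048 20 319 267 1482943 1482969 1724663
  (.cons 18123776 621056 17 361 307 1482879 1482966 1755697
  (.cons 18118912 631296 17 337 291 1482795 1482877 1784722
  (.cons 18114304 641280 17 327 287 1482796 1482914 1812984
  (.cons 18109440 651264 17 330 294 1482888 1482916 1841223
  (.cons 18104064 662272 17 364 330 1482889 1482945 1872273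
  (.cons 18098432 673280 18 347 320 1482873 1482944 1903459
  (.cons 18093568 682752 20 270 253 1482865 1482880 1930445
  (.cons 18089472 690688 18 252 239 1482879 1482923 1952937
  .nil)))))))))

theorem okA5 : pathOk 1000 atD rwD edA5 18134016 598528 = true := by decide +kernel

theorem goodA5 : GoodP 1000 atD rwD edA5 18134016 598528 :=
  path_sound 1000 atD atD_wf rwD edA5 18134016 598528 okA5

theorem eptA5 : ept edA5 18134016 598528 = (18089472, 690688) := rfl

end Pool.Agent.Y795.PiH
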