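import Pool.Agent.Y795.PiH.Dat

/-!
# The data of the archimedean certificate: a piece of a path
-/

set_option autoImplicit false
set_option maxRecDepth 100000

namespace Pool.Agent.Y795.PiH

/-- a piece of the path -/
def edA6 : EL :=
  (.cons 18084352 700160 17 320 307 1482844 1482922 1979564
  (.cons 18079232 709888 24 233 228 1482844 1482963 2007294
  (.cons 18074112 718848 16 326 321 1482798 1482961 2032419
  (.cons 18068992 728064 17 314 313 1482792 1482821 2058508
  (.cons 18064128 736768 19 266 269 1482822 1482891 2083246
  (.cons 18059008 745472 16 319 325 1482808 1482890 2107745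
  (.cons 18053888 754432 24 218 226 1482807 1482920 2133329
  (.cons 18050560 760064 16 208 218 1482921 1482938 2149289
  (.cons 18045184 769024 17 311 327 1482931 1482950 2174383
  .nil)))))))))

theorem okA6 : pathOk 1000 atD rwD edA6 18089472 690688 = true := by decide +kernel

theorem goodA6 : GoodP 1000 atD rwD edA6 18089472 690688 :=
  path_sound 1000 atD atD_wf rwD edA6 18089472 690688 okA6

theorem eptA6 : ept edA6 18089472 690688 = (18045184, 769024) := rfl

end Pool.Agent.Y795.PiH
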