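import Pool.Agent.Y795.PiH.Dat

/-!
# The data of the archimedean certificate: a piece of a path
-/

set_option autoImplicit false
set_option maxRecDepth 100000

namespace Pool.Agent.Y795.PiH

/-- a piece of the path -/
def edA7 : EL :=
  (.cons 18040064 777472 25 201 215 1482948 1482986 2198546
  (.cons 18035712 784384 16 259 279 1482926 1482985 2217964
  (.cons 18029824 793600 19 291 316 1482843 1482924 2243954
  (.cons 18024960 801280 19 243 267 1482843 1482873 2265789
  (.cons 18019584 809728 17 298 330 1482873 1482947 2289554
  (.cons 18014208 817664 19 256 287 1482810 1482945 2312113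
  (.cons 18009856 824320 17 237 268 1482809 1482869 2330976
  (.cons 18004224 832768 19 271 309 1482869 1482919 2354794
  .nil))))))))

theorem okA7 : pathOk 1000 atD rwD edA7 18045184 769024 = true := by decide +kernel

theorem goodA7 : GoodP 1000 atD rwD edA7 18045184 769024 :=
  path_sound 1000 atD atD_wf rwD edA7 18045184 769024 okA7

theorem eptA7 : ept edA7 18045184 769024 = (18004224, 832768) := rfl

end Pool.Agent.Y795.PiH
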