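import Pool.Agent.Y795.PiH.Dat

/-!
# The data of the archimedean certificate: a piece of a path
-/

set_option autoImplicit false
set_option maxRecDepth 100000

namespace Pool.Agent.Y795.PiH

/-- a piece of the path -/
def edA8 : EL :=
  (.cons 17999360 839936 21 210 242 1482918 1482945 2375216
  (.cons 17993728 847872 17 290 336 1482831 1482943 2397484
  (.cons 17988352 855552 22 217 255 1482826 1482842 2419373
  (.cons 17984256 861440 17 214 253 1482841 1482909 2436030
  (.cons 17978368 869632 18 284 338 1482900 1482911 2459047
  (.cons 17973248 876800 27 167 202 1482910 1482993 2479590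
  (.cons 17967360 884480 17 288 348 1482820 1482988 2501050
  (.cons 17961984 891904 22 212 260 1482817 1482957 2522209
  .nil))))))))

theorem okA8 : pathOk 1000 atD rwD edA8 18004224 832768 = true := by decide +kernel

theorem goodA8 : GoodP 1000 atD rwD edA8 18004224 832768 :=
  path_sound 1000 atD atD_wf rwD edA8 18004224 832768 okA8

theorem eptA8 : ept edA8 18004224 832768 = (17961984, 891904) := rfl

end Pool.Agent.Y795.PiH
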