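import Pool.Agent.Y795.PiH.Dat

/-!
# The data of the archimedean certificate: a piece of a path
-/

set_option autoImplicit false
set_option maxRecDepth 100000

namespace Pool.Agent.Y795.PiH

/-- a piece of the path -/
def edA9 : EL :=
  (.cons 17956864 898560 16 266 327 1482895 1482958 2540925
  (.cons 17950976 906240 19 258 320 1482886 1482896 2562661
  (.cons 17945856 912896 20 213 267 1482896 1482935 2581589
  (.cons 17939456 921088 18 292 367 1482934 1482970 2604587
  (.cons 17933312 928768 20 249 316 1482954 1482972 2626411
  (.cons 17926400 937216 18 307 393 1482901 1482958 2650184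
  (.cons 17919488 945664 17 325 419 1482898 1482924 2674039
  (.cons 17904896 963072 16 713 931 1482896 1482955 2722442
  (.cons 17873408 998656 11 2163 2921 1482730 1482924 2820051
  (.cons 17841920 1032192 3 7670 10722 1482717 1482806 2903670
  (.cons 17825792 1048576 1 11499 16357 1482863 1482866 2942652
  .nil)))))))))))

theorem okA9 : pathOk 1000 atD rwD edA9 17961984 891904 = true := by decide +kernel

theorem goodA9 : GoodP 1000 atD rwD edA9 17961984 891904 :=
  path_sound 1000 atD atD_wf rwD edA9 17961984 891904 okA9

theorem eptA9 : ept edA9 17961984 891904 = (17825792, 1048576) := rfl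

end Pool.Agent.Y795.PiH
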