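import Pool.Agent.Y795.PiH.DatA0
import Pool.Agent.Y795.PiH.DatA1
import Pool.Agent.Y795.PiH.DatA2
import Pool.Agent.Y795.PiH.DatA3
import Pool.Agent.Y795.PiH.DatA4
import Pool.Agent.Y795.PiH.DatA5
import Pool.Agent.Y795.PiH.DatA6
import Pool.Agent.Y795.PiH.DatA7
import Pool.Agent.Y795.PiH.DatA8
import Pool.Agent.Y795.PiH.DatA9

/-!
# The data of the archimedean certificate: a path
-/

set_option autoImplicit false

namespace Pool.Agent.Y795.PiH

/-- tail of the path -/
noncomputable def paA9 : EL := edA9

theorem pgoodA9 : GoodP 1000 atD rwD paA9 17961984 891904 := goodA9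

theorem peptA9 : ept paA9 17961984 891904 = (17825792, 1048576) := eptA9

/-- tail of the path -/
noncomputable def paA8 : EL := edA8.app paA9

theorem pgoodA8 : GoodP 1000 atD rwD paA8 18004224 832768 :=
  goodP_app goodA8 eptA8 pgoodA9

theorem peptA8 : ept paA8 18004224 832768 = (17825792, 1048576) :=
  (ept_app _ _ _ _ _ _ eptA8).trans peptA9

/-- tail of the path -/
noncomputable def paA7 : EL := edA7.app paA8

theorem pgoodA7 : GoodP 1000 atD rwD paA7 18045184 769024 :=
  goodP_app goodA7 eptA7 pgoodA8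

theorem peptA7 : ept paA7 18045184 769024 = (17825792, 1048576) :=
  (ept_app _ _ _ _ _ _ eptA7).trans peptA8

/-- tail of the path -/
noncomputable def paA6 : EL := edA6.app paA7

theorem pgoodA6 : GoodP 1000 atD rwD paA6 18089472 690688 :=
  goodP_app goodA6 eptA6 pgoodA7

theorem peptA6 : ept paA6 18089472 690688 = (17825792, 1048576) :=
  (ept_app _ _ _ _ _ _ eptA6).trans peptA7

/-- tail of the path -/
noncomputable def paA5 : EL := edA5.app paA6

theorem pgoodA5 : GoodP 1000 atD rwD paA5 18134016 598528 :=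
  goodP_app goodA5 eptA5 pgoodA6

theorem peptA5 : ept paA5 18134016 598528 = (17825792, 1048576) :=
  (ept_app _ _ _ _ _ _ eptA5).trans peptA6

/-- tail of the path -/
noncomputable def paA4 : EL := edA4.app paA5

theorem pgoodA4 : GoodP 1000 atD rwD paA4 18231808 552448 :=
  goodP_app goodA4 eptA4 pgoodA5

theorem peptA4 : ept paA4 18231808 552448 = (17825792, 1048576) :=
  (ept_app _ _ _ _ _ _ eptA4).trans peptA5

/-- tail of the path -/
noncomputable def paA3 : EL := edA3.app paA4

theorem pgoodA3 : GoodP 1000 atD rwD paA3 18325248 527872 :=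
  goodP_app goodA3 eptA3 pgoodA4

theorem peptA3 : ept paA3 18325248 527872 = (17825792, 1048576) :=
  (ept_app _ _ _ _ _ _ eptA3).trans peptA4

/-- tail of the path -/
noncomputable def paA2 : EL := edA2.app paA3

theorem pgoodA2 : GoodP 1000 atD rwD paA2 18418432 496384 :=
  goodP_app goodA2 eptA2 pgoodA3

theorem peptA2 : ept paA2 18418432 496384 = (17825792, 1048576) :=
  (ept_app _ _ _ _ _ _ eptA2).trans peptA3

/-- tail of the path -/
noncomputable def paA1 : EL := edA1.app paA2

theorem pgoodA1 : GoodP 1000 atD rwD paA1 18516736 447232 :=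
  goodP_app goodA1 eptA1 pgoodA2

theorem peptA1 : ept paA1 18516736 447232 = (17825792, 1048576) :=
  (ept_app _ _ _ _ _ _ eptA1).trans peptA2

/-- tail of the path -/
noncomputable def paA0 : EL := edA0.app paA1

theorem pgoodA0 : GoodP 1000 atD rwD paA0 18845184 0 :=
  goodP_app goodA0 eptA0 pgoodA1

theorem peptA0 : ept paA0 18845184 0 = (17825792, 1048576) :=
  (ept_app _ _ _ _ _ _ eptA0).trans peptA1


end Pool.Agent.Y795.PiH
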