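import Pool.Agent.Y795.PiH.Dat

/-!
# The data of the archimedean certificate: a piece of a path
-/

set_option autoImplicit false
set_option maxRecDepth 100000

namespace Pool.Agent.Y795.PiH

/-- a piece of the path -/
def edB1 : EL :=
  (.cons 11765248 1959168 21 3890 3711 5381385 5387951 26274194
  (.cons 11715072 1819904 16 4629 4392 5379342 5381158 26110375
  (.cons 11659264 1667584 25 3248 3070 5379365 5382660 26012526
  (.cons 11609344 1532672 17 4234 3991 5382943 5390084 25976129
  (.cons 11561472 1404416 22 3115 2934 5390574 5401225 26030740
  (.cons 11511808 1273600 17 4119 3879 5401926 5416737 26135586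
  (.cons 11458048 1132800 28 2695 2540 5417589 5438041 26301926
  .nil)))))))

theorem okB1 : pathOk 1000 atD rwD2 edB1 11820544 2112768 = true := by decide +kernel

theorem goodB1 : GoodP 1000 atD rwD2 edB1 11820544 2112768 :=
  path_sound 1000 atD atD_wf rwD2 edB1 11820544 2112768 okB1

theorem eptB1 : ept edB1 11820544 2112768 = (11458048, 1132800) := rfl

end Pool.Agent.Y795.PiH
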