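import Pool.Agent.Y795.PiH.Dat

/-!
# The data of the archimedean certificate: a piece of a path
-/

set_option autoImplicit false
set_option maxRecDepth 100000

namespace Pool.Agent.Y795.PiH

/-- a piece of the path -/
def edB2 : EL :=
  (.cons 11441408 995840 32 2159 2027 5428077 5438265 26302624
  (.cons 11432704 926208 16 2196 2053 5424277 5427811 26150627
  (.cons 11415296 790528 17 4027 3761 5419957 5424001 26090442
  (.cons 11396864 648960 25 2859 2663 5419107 5419836 26012246
  (.cons 11379712 522752 17 3750 3489 5419405 5422618 25988122
  (.cons 11360768 387328 29 2361 2199 5422859 5430122 26046423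
  (.cons 11341312 252160 17 4020 3748 5430567 5441365 26149695
  .nil)))))))

theorem okB2 : pathOk 1000 atD rwD2 edB2 11458048 1132800 = true := by decide +kernel

theorem goodB2 : GoodP 1000 atD rwD2 edB2 11458048 1132800 :=
  path_sound 1000 atD atD_wf rwD2 edB2 11458048 1132800 okB2

theorem eptB2 : ept edB2 11458048 1132800 = (11341312, 252160) := rfl

end Pool.Agent.Y795.PiH
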