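import Pool.Agent.Y795.PiH.Dat

/-!
# The data of the archimedean certificate: a piece of a path
-/

set_option autoImplicit false
set_option maxRecDepth 100000

namespace Pool.Agent.Y795.PiH

/-- a piece of the path -/
def edB3 : EL :=
  (.cons 11321344 116480 55 1250 1169 5441873 5456962 26303872
  (.cons 11303936 0 18 3275 3060 5457530 5472799 26466844
  .nil))

theorem okB3 : pathOk 1000 atD rwD2 edB3 11341312 252160 = true := by decide +kernel

theorem goodB3 : GoodP 1000 atD rwD2 edB3 11341312 252160 :=
  path_sound 1000 atD atD_wf rwD2 edB3 11341312 252160 okB3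

theorem eptB3 : ept edB3 11341312 252160 = (11303936, 0) := rfl

end Pool.Agent.Y795.PiH
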