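import Pool.Agent.Y795.PiH.DatB0
import Pool.Agent.Y795.PiH.DatB1
import Pool.Agent.Y795.PiH.DatB2
import Pool.Agent.Y795.PiH.DatB3

/-!
# The data of the archimedean certificate: a path
-/

set_option autoImplicit false

namespace Pool.Agent.Y795.PiH

/-- tail of the path -/
noncomputable def paB3 : EL := edB3

theorem pgoodB3 : GoodP 1000 atD rwD2 paB3 11341312 252160 := goodB3

theorem peptB3 : ept paB3 11341312 252160 = (11303936, 0) := eptB3

/-- tail of the path -/
noncomputable def paB2 : EL := edB2.app paB3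

theorem pgoodB2 : GoodP 1000 atD rwD2 paB2 11458048 1132800 :=
  goodP_app goodB2 eptB2 pgoodB3

theorem peptB2 : ept paB2 11458048 1132800 = (11303936, 0) :=
  (ept_app _ _ _ _ _ _ eptB2).trans peptB3

/-- tail of the path -/
noncomputable def paB1 : EL := edB1.app paB2

theorem pgoodB1 : GoodP 1000 atD rwD2 paB1 11820544 2112768 :=
  goodP_app goodB1 eptB1 pgoodB2

theorem peptB1 : ept paB1 11820544 2112768 = (11303936, 0) :=
  (ept_app _ _ _ _ _ _ eptB1).trans peptB2

/-- tail of the path -/
noncomputable def paB0 : EL := edB0.app paB1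

theorem pgoodB0 : GoodP 1000 atD rwD2 paB0 18845184 0 :=
  goodP_app goodB0 eptB0 pgoodB1

theorem peptB0 : ept paB0 18845184 0 = (11303936, 0) :=
  (ept_app _ _ _ _ _ _ eptB0).trans peptB1


end Pool.Agent.Y795.PiH
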