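import Pool.Agent.Y795.PiH.Fin
import Pool.Agent.Y795.PiH.PathA
import Pool.Agent.Y795.PiH.PathB
import Pool.Agent.Y87.PiH.Odd
import Pool.Agent.Y871.PiH.Odd
import Pool.Agent.Y275.PiH.Two1
import Pool.Agent.Y434.PiH.Two
import Pool.Agent.Y614.PiH.Sum
import Pool.Agent.Y287.PiH.Ode
import Pool.Agent.Y287.PiH.Ker
import Pool.Agent.Y858.PiH.Lev2
import Pool.Agent.Y119.PiH.Lev1
import Pool.Agent.Y141.PiH.Quad
import Pool.Agent.Y430.PiH.Nv
import Pool.Agent.Y511.PiH.Int
import Pool.Agent.Y454.PiH.Arch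
import Pool.Agent.Y301.PiH.Z

/-!
# The irrationality exponent of `π` is at most `5.65`
-/

set_option autoImplicit false

open Polynomial

namespace Pool.Agent.Y795.PiH

/-- the certificate -/
noncomputable def cert : Cert :=
  mkCert 1000 24814 atD rwD (xpt 18845184 0 :: pts paA0) (xpt 18845184 0 :: pts paB0)

theorem cert_valid : cert.Valid :=
  valid_of 1000 24814 atD atD_wf rwD rowData_ok paA0 paB0 18845184 0 18845184 0 0 11303936
    pgoodA0 pgoodB0 (by norm_num) rfl (by norm_num) rfl peptA0 peptB0 (by norm_num) rfl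

theorem cert_E : (6.9139 : ℝ) < cert.E := by
  have hR := rowData_ok
  unfold rowData at hR
  simp only [Bool.and_eq_true, List.all_eq_true, List.mem_range] at hR
  obtain ⟨⟨⟨⟨-, r2⟩, -⟩, -⟩, -⟩ := hR
  have h := E_eq 1000 24814 atD rwD (xpt 18845184 0 :: pts paA0) (xpt 18845184 0 :: pts paB0)
    (fun j hj => by
      have : Nat.ble (degOf atD (Rget rwD j) + 1) (degOf atD (Rget rwD (j + 1))) = true := r2 j hj
      exact Nat.le_of_ble_eq_true this)
  rw [Esum_ok] at h
  have h2 := Real.log_two_gt_d9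
  change (6.9139 : ℝ) < (mkCert 1000 24814 atD rwD _ _).E
  rw [h]
  push_cast
  rw [lt_div_iff₀ (by norm_num)]
  norm_num at h2 ⊢
  linarith

theorem cert_s : 0 < cert.s ∧ cert.s < 17.1998 := by
  have e : cert.s = 24814 * Real.log 2 / 1000 := by
    change (((24814 : ℕ) : ℝ)) * Real.log 2 / ((1000 : ℕ) : ℝ) = _
    norm_num
  have h1 := Real.log_two_lt_d9
  have h2 := Real.log_two_gt_d9
  rw [e]
  constructor
  · positivity
  · rw [div_lt_iff₀ (by norm_num)]
    norm_num at h1 ⊢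
    linarith

/-- for all large `q` and all `a`: `|π - a/q| ≥ q^(-5.643)` -/
theorem main : S_mu 5.643 := by
  have hint := Pool.Agent.Y511.PiH.int
  refine large_den cert cert_valid (Pool.Agent.Y871.PiH.odd Pool.Agent.Y87.PiH.odd1 Pool.Agent.Y87.PiH.odd2)
    (Pool.Agent.Y434.PiH.two Pool.Agent.Y275.PiH.two1) Pool.Agent.Y614.PiH.sum
    (Pool.Agent.Y430.PiH.nv (Pool.Agent.Y858.PiH.lev2 Pool.Agent.Y287.PiH.ode)
      Pool.Agent.Y119.PiH.lev1 Pool.Agent.Y287.PiH.ker Pool.Agent.Y141.PiH.quad)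
    (Pool.Agent.Y454.PiH.arch hint) Pool.Agent.Y301.PiH.Z 3.0483 5.643 (by norm_num) ?_ cert_s.1 ?_
  · have h1 := cert_E
    have h2 := Real.log_two_lt_d9
    norm_num at h1 h2 ⊢
    linarith
  · have := cert_s.2
    norm_num at this ⊢
    linarith

end Pool.Agent.Y795.PiH
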