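import Pool.Agent.H326R2.Pi.Stmts
import Pool.Agent.H326R2.Pi.T2
import Pool.Agent.H89R2.PiT1
import Pool.Agent.H837R2.PI.T3
import Pool.Agent.H847R2.PiT4

/-!
# Hankel determinants of linear forms in `1` and `π`: definitions and basic facts

With `w = x + 2/x`, `s = x - 2/x` and a polynomial `Q(w)` the integrand
`Q(w) (w-2)^(2p) (w-3)^(4p) (w²-8)^(-2p) dx/x` has the primitive `k log x + Ψ(w) s^(1-4p)` where
`LL (2p) Ψ = Q (w-2)^(2p) (w-3)^(4p) - k (w²-8)^(2p)`. The linear form is `k π + 8 Ψ(2) / 16^p`.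
-/

set_option autoImplicit false

open Polynomial

namespace Pool.Agent.Y795.PiH

open Pool.Agent.H326R2.Pi

/-- the weight `(w-2)^(2p) (w-3)^(4p)` -/
noncomputable def WW (R : Type*) [CommRing R] (p : ℕ) : R[X] :=
  (X - 2) ^ (2 * p) * (X - 3) ^ (4 * p)

/-- `k`, `Ψ` solve the equation for the polynomial `Q` -/
def Sl (p : ℕ) (Q : ℚ[X]) (k : ℚ) (Ψ : ℚ[X]) : Prop :=
  LL (2 * p) Ψ = Q * WW ℚ p - C k * (X ^ 2 - 8) ^ (2 * p)

open Classical in
/-- the coefficient of `π` -/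
noncomputable def kf (p : ℕ) (Q : ℚ[X]) : ℚ :=
  if h : ∃ k, ∃ Ψ, Sl p Q k Ψ then h.choose else 0

open Classical in
/-- the polynomial `Ψ` -/
noncomputable def Pf (p : ℕ) (Q : ℚ[X]) : ℚ[X] :=
  if h : ∃ k, ∃ Ψ, Sl p Q k Ψ then h.choose_spec.choose else 0

/-- the rational part of the linear form -/
noncomputable def bf (p : ℕ) (Q : ℚ[X]) : ℚ := 8 * (Pf p Q).eval 2 / 16 ^ p

/-- the linear form at the point `z` instead of `π` -/
noncomputable def Nz (p : ℕ) (z : ℚ) (Q : ℚ[X]) : ℚ := kf p Q * z + bf p Q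

/-- the Hankel determinant of size `p + 1` -/
noncomputable def DET (p : ℕ) (z : ℚ) : ℚ :=
  (Matrix.of fun i j : Fin (p + 1) => Nz p z (X ^ ((i : ℕ) + (j : ℕ)))).det

/-! ## Basic facts -/

theorem term : S_term :=
  Pool.Agent.H837R2.PI.term T1.odd T1.low T2

theorem LL_add {R : Type*} [CommRing R] (m : ℕ) (P Q : R[X]) : LL m (P + Q) = LL m P + LL m Q :=
  Pool.Agent.H837R2.PI.LL_add m P Q

theorem LL_C_mul {R : Type*} [CommRing R] (m : ℕ) (c : R) (P : R[X]) :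
    LL m (C c * P) = C c * LL m P := Pool.Agent.H837R2.PI.LL_C_mul m c P

theorem LL_sub {R : Type*} [CommRing R] (m : ℕ) (P Q : R[X]) : LL m (P - Q) = LL m P - LL m Q := by
  unfold LL
  rw [derivative_sub]
  ring

theorem LL_map {R S : Type*} [CommRing R] [CommRing S] (f : R →+* S) (m : ℕ) (F : R[X]) :
    (LL m F).map f = LL m (F.map f) := by
  unfold LL
  simp only [Polynomial.map_sub, Polynomial.map_mul, Polynomial.map_pow, Polynomial.map_X,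
    Polynomial.map_ofNat, Polynomial.map_natCast, Polynomial.map_one, derivative_map]

theorem WW_map {R S : Type*} [CommRing R] [CommRing S] (f : R →+* S) (p : ℕ) :
    (WW R p).map f = WW S p := by
  unfold WW
  simp only [Polynomial.map_sub, Polynomial.map_mul, Polynomial.map_pow, Polynomial.map_X,
    Polynomial.map_ofNat]

theorem natDegree_WW (R : Type*) [CommRing R] (p : ℕ) : (WW R p).natDegree ≤ 6 * p := by
  unfold WW
  refine natDegree_mul_le.trans ?_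
  have h1 : ((X - 2 : R[X]) ^ (2 * p)).natDegree ≤ 2 * p * 1 := by
    refine natDegree_pow_le.trans ?_
    have : (X - 2 : R[X]).natDegree ≤ 1 := by compute_degree
    gcongr
  have h2 : ((X - 3 : R[X]) ^ (4 * p)).natDegree ≤ 4 * p * 1 := by
    refine natDegree_pow_le.trans ?_
    have : (X - 3 : R[X]).natDegree ≤ 1 := by compute_degree
    gcongr
  omega

theorem Sl_add {p : ℕ} {Q Q' Ψ Ψ' : ℚ[X]} {k k' : ℚ} (h : Sl p Q k Ψ) (h' : Sl p Q' k' Ψ') :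
    Sl p (Q + Q') (k + k') (Ψ + Ψ') := by
  unfold Sl at *
  rw [LL_add, h, h', C_add]; ring

theorem Sl_C_mul {p : ℕ} {Q Ψ : ℚ[X]} {k : ℚ} (c : ℚ) (h : Sl p Q k Ψ) :
    Sl p (C c * Q) (c * k) (C c * Ψ) := by
  unfold Sl at *
  rw [LL_C_mul, h, C_mul]; ring

/-- uniqueness -/
theorem Sl_unique {p : ℕ} {Q Ψ Ψ' : ℚ[X]} {k k' : ℚ} (h : Sl p Q k Ψ) (h' : Sl p Q k' Ψ') :
    k = k' ∧ Ψ = Ψ' := by
  have h1 : LL (2 * p) (Ψ - Ψ') = C (k' - k) * (X ^ 2 - 8) ^ (2 * p) := by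
    unfold Sl at *
    rw [LL_sub, h, h', C_sub]; ring
  obtain ⟨h2, h3⟩ := Pool.Agent.H847R2.PiT4.uniq _ _ _ h1
  exact ⟨by linarith, sub_eq_zero.1 h2⟩

theorem lcm_dvd (N : ℕ) : ∀ j, 1 ≤ j → j ≤ N → j ∣ Nat.lcmUpto N := fun j h1 h2 => by
  unfold Nat.lcmUpto
  exact Finset.dvd_lcm (f := id) (Finset.mem_Icc.2 ⟨h1, h2⟩)

/-- an integral solution with its denominator -/
theorem sol_int (p : ℕ) (hp : 1 ≤ p) (N : ℕ) (hN : 4 * p ≤ N + 1) (Q : ℤ[X])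
    (hQ : Q.natDegree + 2 * p ≤ N) :
    ∃ (k : ℤ) (Φ : ℤ[X]), Φ.natDegree ≤ 4 * p + N - 1 ∧
      LL (2 * p) Φ = 8 ^ (2 * p) * (Nat.lcmUpto N : ℤ[X]) * (Q * WW ℤ p - C k * (X ^ 2 - 8) ^ (2 * p)) ∧
      Sl p (Q.map (Int.castRingHom ℚ)) k
        (C ((8 ^ (2 * p) * (Nat.lcmUpto N : ℚ))⁻¹) * Φ.map (Int.castRingHom ℚ)) := by
  have hdeg : (Q * WW ℤ p).natDegree ≤ 2 * (2 * p) + N := by
    refine natDegree_mul_le.trans ?_
    have := natDegree_WW ℤ p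
    omega
  obtain ⟨k, Φ, h1, h2⟩ := term (2 * p) N (Nat.lcmUpto N) (by omega) (by omega) (lcm_dvd N) _ hdeg
  refine ⟨k, Φ, by omega, h2, ?_⟩
  have hL : (Nat.lcmUpto N : ℚ) ≠ 0 := by exact_mod_cast (Nat.lcmUpto_pos N).ne'
  unfold Sl
  have h3 := congrArg (Polynomial.map (Int.castRingHom ℚ)) h2
  rw [LL_map] at h3
  have h5 : (C k : ℤ[X]).map (Int.castRingHom ℚ) = C (k : ℚ) := by rw [Polynomial.map_C]; simp
  simp only [Polynomial.map_mul, Polynomial.map_sub, Polynomial.map_pow, Polynomial.map_ofNat,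
    Polynomial.map_natCast, Polynomial.map_X, WW_map, h5] at h3
  rw [LL_C_mul, h3]
  have h4 : (8 ^ (2 * p) * (Nat.lcmUpto N : ℚ[X])) = C (8 ^ (2 * p) * (Nat.lcmUpto N : ℚ)) := by
    rw [C_mul, C_pow, map_natCast, map_ofNat]
  rw [h4, ← mul_assoc, ← C_mul, inv_mul_cancel₀ (by positivity), C_1, one_mul]

/-- existence -/
theorem Sl_exists (p : ℕ) (hp : 1 ≤ p) (Q : ℚ[X]) : ∃ k, ∃ Ψ, Sl p Q k Ψ := by
  induction Q using Polynomial.induction_on' with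
  | add P Q hP hQ =>
    obtain ⟨k, Ψ, h⟩ := hP
    obtain ⟨k', Ψ', h'⟩ := hQ
    exact ⟨_, _, Sl_add h h'⟩
  | monomial n a =>
    obtain ⟨k, Φ, -, -, h⟩ := sol_int p hp (4 * p + n) (by omega) (X ^ n)
      (by rw [natDegree_X_pow]; omega)
    rw [Polynomial.map_pow, Polynomial.map_X] at h
    rw [← C_mul_X_pow_eq_monomial]
    exact ⟨_, _, Sl_C_mul a h⟩

theorem Sl_spec (p : ℕ) (hp : 1 ≤ p) (Q : ℚ[X]) : Sl p Q (kf p Q) (Pf p Q) := by
  have h := Sl_exists p hp Q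
  unfold kf Pf
  rw [dif_pos h, dif_pos h]
  exact h.choose_spec.choose_spec

/-- the value of `kf`, `Pf` from any solution -/
theorem eq_of_Sl {p : ℕ} (hp : 1 ≤ p) {Q Ψ : ℚ[X]} {k : ℚ} (h : Sl p Q k Ψ) :
    kf p Q = k ∧ Pf p Q = Ψ := Sl_unique (Sl_spec p hp Q) h

theorem kf_add {p : ℕ} (hp : 1 ≤ p) (P Q : ℚ[X]) : kf p (P + Q) = kf p P + kf p Q :=
  (eq_of_Sl hp (Sl_add (Sl_spec p hp P) (Sl_spec p hp Q))).1

theorem Pf_add {p : ℕ} (hp : 1 ≤ p) (P Q : ℚ[X]) : Pf p (P + Q) = Pf p P + Pf p Q :=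
  (eq_of_Sl hp (Sl_add (Sl_spec p hp P) (Sl_spec p hp Q))).2

theorem kf_C_mul {p : ℕ} (hp : 1 ≤ p) (c : ℚ) (Q : ℚ[X]) : kf p (C c * Q) = c * kf p Q :=
  (eq_of_Sl hp (Sl_C_mul c (Sl_spec p hp Q))).1

theorem Pf_C_mul {p : ℕ} (hp : 1 ≤ p) (c : ℚ) (Q : ℚ[X]) : Pf p (C c * Q) = C c * Pf p Q :=
  (eq_of_Sl hp (Sl_C_mul c (Sl_spec p hp Q))).2

theorem bf_add {p : ℕ} (hp : 1 ≤ p) (P Q : ℚ[X]) : bf p (P + Q) = bf p P + bf p Q := by
  unfold bf
  rw [Pf_add hp, eval_add]; ring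

theorem bf_C_mul {p : ℕ} (hp : 1 ≤ p) (c : ℚ) (Q : ℚ[X]) : bf p (C c * Q) = c * bf p Q := by
  unfold bf
  rw [Pf_C_mul hp, eval_mul, eval_C]; ring

theorem Nz_add {p : ℕ} (hp : 1 ≤ p) (z : ℚ) (P Q : ℚ[X]) :
    Nz p z (P + Q) = Nz p z P + Nz p z Q := by
  unfold Nz
  rw [kf_add hp, bf_add hp]; ring

theorem Nz_C_mul {p : ℕ} (hp : 1 ≤ p) (z c : ℚ) (Q : ℚ[X]) :
    Nz p z (C c * Q) = c * Nz p z Q := by
  unfold Nz
  rw [kf_C_mul hp, bf_C_mul hp]; ring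

/-- the linear form as a linear map -/
noncomputable def NzL (p : ℕ) (hp : 1 ≤ p) (z : ℚ) : ℚ[X] →ₗ[ℚ] ℚ where
  toFun := Nz p z
  map_add' := Nz_add hp z
  map_smul' c Q := by rw [smul_eq_C_mul, Nz_C_mul hp, RingHom.id_apply, smul_eq_mul]

theorem NzL_apply (p : ℕ) (hp : 1 ≤ p) (z : ℚ) (Q : ℚ[X]) : NzL p hp z Q = Nz p z Q := rfl

/-- the determinant in any basis of monic polynomials -/
theorem DET_basis (p : ℕ) (hp : 1 ≤ p) (z : ℚ) (Q : ℕ → ℚ[X])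
    (hQ : ∀ i ≤ p, (Q i).Monic ∧ (Q i).natDegree = i) :
    DET p z = (Matrix.of fun i j : Fin (p + 1) => Nz p z (Q i * Q j)).det := by
  set U : Matrix (Fin (p + 1)) (Fin (p + 1)) ℚ := Matrix.of fun i j => (Q i).coeff j with hU
  set M : Matrix (Fin (p + 1)) (Fin (p + 1)) ℚ :=
    Matrix.of fun i j : Fin (p + 1) => Nz p z (X ^ ((i : ℕ) + (j : ℕ))) with hM
  have hdet : U.det = 1 := by
    rw [Matrix.det_of_isLowerTriangular]
    · apply Finset.prod_eq_one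
      intro i _
      have h := hQ i (by omega)
      have h1 : (Q i).coeff (Q i).natDegree = 1 := h.1
      rw [h.2] at h1
      exact h1
    · intro i j hij
      have h := hQ i (by omega)
      have hij' : (i : ℕ) < j := hij
      rw [hU, Matrix.of_apply]
      exact coeff_eq_zero_of_natDegree_lt (by omega)
  have key : (Matrix.of fun i j : Fin (p + 1) => Nz p z (Q i * Q j)) = U * M * U.transpose := by
    ext i j
    rw [Matrix.mul_apply, Matrix.of_apply]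
    simp only [Matrix.mul_apply, Matrix.transpose_apply, hU, hM, Matrix.of_apply]
    have e1 : ∀ i : Fin (p + 1), Q i = ∑ k : Fin (p + 1), C ((Q i).coeff k) * X ^ (k : ℕ) := by
      intro i
      have h := hQ i (by omega)
      conv_lhs => rw [(Q i).as_sum_range_C_mul_X_pow' (n := p + 1) (by omega)]
      rw [Finset.sum_range]
    rw [← NzL_apply p hp]
    conv_lhs => rw [e1 i, e1 j, Finset.sum_mul_sum]
    simp only [map_sum, Finset.sum_mul]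
    rw [Finset.sum_comm]
    refine Finset.sum_congr rfl fun l _ => ?_
    refine Finset.sum_congr rfl fun k _ => ?_
    have e2 : C ((Q ↑i).coeff ↑k) * X ^ (k : ℕ) * (C ((Q ↑j).coeff ↑l) * X ^ (l : ℕ)) =
        C ((Q ↑i).coeff ↑k * (Q ↑j).coeff ↑l) * X ^ ((k : ℕ) + l) := by
      rw [C_mul, pow_add]; ring
    rw [e2, NzL_apply, Nz_C_mul hp]
    ring
  rw [key, Matrix.det_mul, Matrix.det_mul, Matrix.det_transpose, hdet, one_mul, mul_one, DET]

end Pool.Agent.Y795.PiH
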