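import Pool.Agent.Y795.PiH.Stm

/-!
# A kernel-friendly checker for the archimedean certificate

Coordinates are natural numbers in units of `2^(-20)`; the real coordinates and the imaginary
coordinates in the `w`-plane are shifted by `2^24`.
-/

set_option autoImplicit false

open Polynomial

namespace Pool.Agent.Y795.PiH

/-- list of atoms `c = ((a - O) + i (b - O)) / σ`, `b' - O = O - b` -/
inductive AL | nil | cons (a b b' : ℕ) (l : AL)

/-- list of numbers -/
inductive NL | nil | cons (a : ℕ) (l : NL)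

/-- list of rows: exponents and the exponent of the bound -/
inductive RL | nil | cons (A : NL) (e : ℕ) (l : RL)

/-- list of edges: end point, number of cells, radii, bounds -/
inductive EL | nil | cons (X Y n r ρ m0 M0 h0 : ℕ) (l : EL)

/-- absolute difference -/
def ad (a b : ℕ) : ℕ := Nat.add (Nat.sub a b) (Nat.sub b a)

/-- `2 max + min` -/
def mm (a b : ℕ) : ℕ := Nat.add (Nat.add a a) (Nat.add b (Nat.sub b a))

/-- bound for `(d + ρ)²` -/
def ub (du dv r : ℕ) : ℕ :=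
  Nat.add (Nat.add (Nat.mul du du) (Nat.mul dv dv)) (Nat.mul r (Nat.add (mm du dv) r))

/-- the numbers for the atoms -/
noncomputable def ul (U V r : ℕ) (l : AL) : NL :=
  AL.rec (motive := fun _ => NL) NL.nil
    (fun a b b' _ ih => NL.cons (Nat.mul (ub (ad U a) (ad V b) r) (ub (ad U a) (ad V b') r)) ih) l

/-- product of powers -/
noncomputable def pr (A : NL) : NL → ℕ :=
  NL.rec (motive := fun _ => NL → ℕ) (fun _ => 1)
    (fun a _ ih L => NL.rec (motive := fun _ => ℕ) 1 (fun u l _ => Nat.mul (Nat.pow u a) (ih l)) L) A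

/-- boolean `and` with the cheap argument first -/
def bb (a b : Bool) : Bool := Bool.rec (motive := fun _ => Bool) false b a

/-- all rows are fine -/
noncomputable def rowsOk (L : NL) (X Y : ℕ) (l : RL) : Bool :=
  RL.rec (motive := fun _ => Bool) true
    (fun A e _ ih => bb (Nat.ble (Nat.mul (pr A L) X) (Nat.mul Y (Nat.pow 2 e))) ih) l

/-- `(|w-2|² |w-3|⁴)` -/
def xx (U V r : ℕ) : ℕ :=
  Nat.mul (ub (ad U 18874368) (ad V 16777216) r)
    (Nat.mul (ub (ad U 19922944) (ad V 16777216) r) (ub (ad U 19922944) (ad V 16777216) r))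

/-- lower bound of `|w²-8|²` -/
def lw' (au av r : ℕ) : ℕ :=
  Nat.sub
    (Nat.add (Nat.mul (ad (Nat.mul au au) (Nat.add (Nat.mul av av) 8796093022208))
        (ad (Nat.mul au au) (Nat.add (Nat.mul av av) 8796093022208)))
      (Nat.mul 4 (Nat.mul (Nat.mul au av) (Nat.mul au av))))
    (Nat.mul (mm (ad (Nat.mul au au) (Nat.add (Nat.mul av av) 8796093022208))
        (Nat.mul 2 (Nat.mul au av)))
      (Nat.mul r (Nat.add (mm au av) r)))

/-- lower bound of `|w²-8|²` -/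
def lw (U V r : ℕ) : ℕ := lw' (ad U 16777216) (ad V 16777216) r

/-- the check of a disc in the `w`-plane -/
noncomputable def discOk (D : ℕ) (at_ : AL) (rw_ : RL) (U V r : ℕ) : Bool :=
  bb (Nat.ble 1 (lw U V r))
    (rowsOk (ul U V r at_) (Nat.pow (xx U V r) D) (Nat.pow (lw U V r) D) rw_)

/-- the real part of `w` -/
def wu (X t : ℕ) : ℕ :=
  Bool.rec (motive := fun _ => ℕ) (Nat.sub X t) (Nat.add X t) (Nat.ble 16777216 X)

/-- the check of a cell with centre `(X, Y)` in the `x`-plane -/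
noncomputable def cellOk (D : ℕ) (at_ : AL) (rw_ : RL) (ρ m0 M0 h0 X Y : ℕ) : Bool :=
  bb (Nat.ble (Nat.mul m0 m0) (Nat.add (Nat.mul (ad X 16777216) (ad X 16777216)) (Nat.mul Y Y)))
  (bb (Nat.ble (Nat.add (Nat.mul (ad X 16777216) (ad X 16777216)) (Nat.mul Y Y)) (Nat.mul M0 M0))
  (bb (Nat.ble
      (Nat.add
        (Nat.mul (ad (Nat.mul (ad X 16777216) (ad X 16777216)) (Nat.add (Nat.mul Y Y) 2199023255552))
          (ad (Nat.mul (ad X 16777216) (ad X 16777216)) (Nat.add (Nat.mul Y Y) 2199023255552)))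
        (Nat.mul 4 (Nat.mul (Nat.mul (ad X 16777216) Y) (Nat.mul (ad X 16777216) Y))))
      (Nat.mul (Nat.mul h0 1048576) (Nat.mul h0 1048576)))
    (discOk D at_ rw_
      (wu X (Nat.div (Nat.mul 2199023255552 (ad X 16777216))
        (Nat.add (Nat.mul (ad X 16777216) (ad X 16777216)) (Nat.mul Y Y))))
      (Nat.sub (Nat.add Y 16777216) (Nat.div (Nat.mul 2199023255552 Y)
        (Nat.add (Nat.mul (ad X 16777216) (ad X 16777216)) (Nat.mul Y Y))))
      ρ)))

/-- the checks of the cells of an edge -/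
noncomputable def cellsOk (D : ℕ) (at_ : AL) (rw_ : RL) (X0 Y0 X1 Y1 n ρ m0 M0 h0 : ℕ) (k : ℕ) :
    Bool :=
  Nat.rec (motive := fun _ => Bool) true
    (fun m ih => bb (cellOk D at_ rw_ ρ m0 M0 h0
      (Nat.div (Nat.add (Nat.mul X0 (Nat.sub (Nat.mul 2 n) (Nat.succ (Nat.mul 2 m))))
        (Nat.mul X1 (Nat.succ (Nat.mul 2 m)))) (Nat.mul 2 n))
      (Nat.div (Nat.add (Nat.mul Y0 (Nat.sub (Nat.mul 2 n) (Nat.succ (Nat.mul 2 m))))
        (Nat.mul Y1 (Nat.succ (Nat.mul 2 m)))) (Nat.mul 2 n))) ih) k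

/-- the check of an edge -/
noncomputable def edgeOk (D : ℕ) (at_ : AL) (rw_ : RL) (X0 Y0 X1 Y1 n r ρ m0 M0 h0 : ℕ) : Bool :=
  bb (Nat.ble 1 n) (bb (Nat.ble 3 r) (bb (Nat.ble M0 8388608) (bb (Nat.ble (Nat.add r 1048576) m0)
  (bb (Nat.ble (Nat.add (Nat.mul (ad X0 X1) (ad X0 X1)) (Nat.mul (ad Y0 Y1) (ad Y0 Y1)))
    (Nat.mul (Nat.mul (Nat.mul 2 n) (Nat.sub r 2)) (Nat.mul (Nat.mul 2 n) (Nat.sub r 2))))
  (bb (Nat.ble (Nat.mul r (Nat.add (Nat.mul h0 1048576) (Nat.mul M0 r)))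
    (Nat.mul (Nat.sub ρ 2) (Nat.mul (Nat.sub m0 r) m0)))
    (cellsOk D at_ rw_ X0 Y0 X1 Y1 n ρ m0 M0 h0 n))))))

/-- add `S` to the exponents of all rows -/
noncomputable def shiftR (S : ℕ) (l : RL) : RL :=
  RL.rec (motive := fun _ => RL) RL.nil (fun A e _ ih => RL.cons A (Nat.add e S) ih) l

/-- the check of a path -/
noncomputable def pathOk (D : ℕ) (at_ : AL) (rw_ : RL) (l : EL) : ℕ → ℕ → Bool :=
  EL.rec (motive := fun _ => ℕ → ℕ → Bool) (fun _ _ => true)
    (fun X Y n r ρ m0 M0 h0 _ ih X0 Y0 => bb (edgeOk D at_ rw_ X0 Y0 X Y n r ρ m0 M0 h0) (ih X Y)) l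

end Pool.Agent.Y795.PiH
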