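import Pool.Agent.Y795.PiH.Snd4

/-!
# The data of the archimedean certificate: the polynomials
-/

set_option autoImplicit false
set_option maxRecDepth 100000

namespace Pool.Agent.Y795.PiH

/-- the atoms -/
def atD : AL :=
  (.cons 18887680 16777216 16777216 (.cons 18939904 16777216 16777216 (.cons 19017728 16777216 16777216 (.cons 19044352 16777216 16777216 (.cons 19069952 16777216 16777216 (.cons 19095552 16777216 16777216 (.cons 19122176 16777216 16777216 (.cons 19147776 16777216 16777216 (.cons 19174400 16777216 16777216 (.cons 19200000 16777216 16777216 (.cons 19226624 16777216 16777216 (.cons 19252224 16777216 16777216 (.cons 19278848 16777216 16777216 (.cons 19304448 16777216 16777216 (.cons 19331072 16777216 16777216 (.cons 19356672 16777216 16777216 (.cons 19383296 16777216 16777216 (.cons 19408896 16777216 16777216 (.cons 19435520 16777216 16777216 (.cons 19461120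 16777216 16777216 (.cons 19486720 16777216 16777216 (.cons 19509248 16785408 16769024 (.cons 19525632 16801792 16752640 (.cons 19543040 16818176 16736256 (.cons 19559424 16834560 16719872 (.cons 19576832 16850944 16703488 (.cons 19593216 16867328 16687104 (.cons 19610624 16883712 16670720 (.cons 19630080 16896000 16658432 (.cons 19651584 16904192 16650240 (.cons 19673088 16913408 16641024 (.cons 19691520 16918528 16635904 (.cons 19707904 16920576 16633856 (.cons 19727360 16922624 16631808 (.cons 11399168 18621440 14932992 (.cons 11302912 18394112 15160320 (.cons 11206656 18166784 15387648 (.cons 11110400 17939456 15614976 (.cons 11042816 17694720 15859712 (.cons 11001856 17432576 16121856 (.cons 10961920 17170432 16384000 (.cons 10921984 16908288 16646144 .nil))))))))))))))))))))))))))))))))))))))))))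

/-- the rows -/
def rwD : RL :=
  (.cons .nil 32739
  (.cons (.cons 0 (.cons 0 (.cons 0 (.cons 0 (.cons 0 (.cons 0 (.cons 0 (.cons 0 (.cons 0 (.cons 0 (.cons 0 (.cons 0 (.cons 0 (.cons 0 (.cons 0 (.cons 0 (.cons 0 (.cons 0 (.cons 0 (.cons 0 (.cons 0 (.cons 0 (.cons 0 (.cons 2 (.cons 6 (.cons 6 (.cons 7 .nil))))))))))))))))))))))))))) 34054
  (.cons (.cons 0 (.cons 0 (.cons 0 (.cons 0 (.cons 0 (.cons 0 (.cons 0 (.cons 0 (.cons 0 (.cons 0 (.cons 0 (.cons 0 (.cons 0 (.cons 0 (.cons 0 (.cons 0 (.cons 0 (.cons 0 (.cons 0 (.cons 0 (.cons 0 (.cons 0 (.cons 3 (.cons 5 (.cons 8 (.cons 8 (.cons 11 (.cons 7 .nil)))))))))))))))))))))))))))) 35409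
  (.cons (.cons 0 (.cons 0 (.cons 0 (.cons 0 (.cons 0 (.cons 0 (.cons 0 (.cons 0 (.cons 0 (.cons 0 (.cons 0 (.cons 0 (.cons 0 (.cons 0 (.cons 0 (.cons 0 (.cons 0 (.cons 0 (.cons 2 (.cons 1 (.cons 0 (.cons 2 (.cons 4 (.cons 6 (.cons 10 (.cons 9 (.cons 13 (.cons 10 (.cons 6 .nil))))))))))))))))))))))))))))) 36794
  (.cons (.cons 0 (.cons 0 (.cons 0 (.cons 0 (.cons 0 (.cons 0 (.cons 0 (.cons 0 (.cons 0 (.cons 0 (.cons 0 (.cons 0 (.cons 0 (.cons 0 (.cons 0 (.cons 1 (.cons 2 (.cons 2 (.cons 2 (.cons 1 (.cons 1 (.cons 2 (.cons 6 (.cons 6 (.cons 10 (.cons 11 (.cons 15 (.cons 9 (.cons 13 (.cons 2 .nil)))))))))))))))))))))))))))))) 38139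
  (.cons (.cons 0 (.cons 0 (.cons 0 (.cons 0 (.cons 0 (.cons 0 (.cons 0 (.cons 0 (.cons 0 (.cons 0 (.cons 0 (.cons 0 (.cons 0 (.cons 0 (.cons 3 (.cons 2 (.cons 3 (.cons 2 (.cons 4 (.cons 1 (.cons 2 (.cons 1 (.cons 7 (.cons 5 (.cons 14 (.cons 10 (.cons 17 (.cons 12 (.cons 15 (.cons 6 .nil)))))))))))))))))))))))))))))) 39562
  (.cons (.cons 0 (.cons 0 (.cons 0 (.cons 0 (.cons 0 (.cons 0 (.cons 0 (.cons 0 (.cons 0 (.cons 0 (.cons 0 (.cons 0 (.cons 1 (.cons 3 (.cons 3 (.cons 4 (.cons 3 (.cons 3 (.cons 4 (.cons 2 (.cons 2 (.cons 2 (.cons 5 (.cons 9 (.cons 12 (.cons 13 (.cons 16 (.cons 17 (.cons 11 (.cons 15 .nil)))))))))))))))))))))))))))))) 40995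
  (.cons (.cons 0 (.cons 0 (.cons 0 (.cons 0 (.cons 0 (.cons 0 (.cons 0 (.cons 0 (.cons 0 (.cons 0 (.cons 0 (.cons 0 (.cons 6 (.cons 2 (.cons 4 (.cons 5 (.cons 4 (.cons 3 (.cons 5 (.cons 2 (.cons 3 (.cons 1 (.cons 7 (.cons 9 (.cons 11 (.cons 17 (.cons 14 (.cons 19 (.cons 12 (.cons 19 (.cons 3 .nil))))))))))))))))))))))))))))))) 42439
  (.cons (.cons 0 (.cons 0 (.cons 0 (.cons 0 (.cons 0 (.cons 0 (.cons 0 (.cons 0 (.cons 0 (.cons 0 (.cons 0 (.cons 6 (.cons 2 (.cons 6 (.cons 4 (.cons 5 (.cons 4 (.cons 5 (.cons 4 (.cons 4 (.cons 2 (.cons 2 (.cons 7 (.cons 9 (.cons 14 (.cons 15 (.cons 17 (.cons 19 (.cons 13 (.cons 23 (.cons 6 .nil))))))))))))))))))))))))))))))) 43886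
  (.cons (.cons 0 (.cons 0 (.cons 0 (.cons 0 (.cons 0 (.cons 0 (.cons 0 (.cons 0 (.cons 0 (.cons 0 (.cons 5 (.cons 3 (.cons 6 (.cons 5 (.cons 5 (.cons 6 (.cons 5 (.cons 4 (.cons 6 (.cons 2 (.cons 4 (.cons 3 (.cons 7 (.cons 9 (.cons 14 (.cons 16 (.cons 19 (.cons 19 (.cons 16 (.cons 21 (.cons 13 .nil))))))))))))))))))))))))))))))) 45340
  (.cons (.cons 0 (.cons 0 (.cons 0 (.cons 0 (.cons 0 (.cons 0 (.cons 0 (.cons 0 (.cons 0 (.cons 3 (.cons 5 (.cons 5 (.cons 6 (.cons 5 (.cons 6 (.cons 7 (.cons 5 (.cons 5 (.cons 5 (.cons 5 (.cons 2 (.cons 2 (.cons 8 (.cons 10 (.cons 15 (.cons 16 (.cons 21 (.cons 19 (.cons 19 (.cons 20 (.cons 17 (.cons 2 .nil)))))))))))))))))))))))))))))))) 46729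
  (.cons (.cons 0 (.cons 0 (.cons 0 (.cons 0 (.cons 0 (.cons 0 (.cons 0 (.cons 0 (.cons 1 (.cons 6 (.cons 5 (.cons 6 (.cons 7 (.cons 6 (.cons 6 (.cons 7 (.cons 6 (.cons 5 (.cons 6 (.cons 4 (.cons 3 (.cons 3 (.cons 7 (.cons 11 (.cons 16 (.cons 16 (.cons 22 (.cons 19 (.cons 21 (.cons 22 (.cons 19 (.cons 5 .nil)))))))))))))))))))))))))))))))) 48193
  (.cons (.cons 0 (.cons 0 (.cons 0 (.cons 0 (.cons 0 (.cons 0 (.cons 0 (.cons 0 (.cons 5 (.cons 5 (.cons 7 (.cons 6 (.cons 7 (.cons 8 (.cons 6 (.cons 7 (.cons 7 (.cons 5 (.cons 7 (.cons 3 (.cons 5 (.cons 2 (.cons 8 (.cons 12 (.cons 14 (.cons 20 (.cons 19 (.cons 24 (.cons 18 (.cons 27 (.cons 17 (.cons 11 .nil)))))))))))))))))))))))))))))))) 49659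
  (.cons (.cons 0 (.cons 0 (.cons 0 (.cons 0 (.cons 0 (.cons 0 (.cons 0 (.cons 1 (.cons 8 (.cons 5 (.cons 8 (.cons 7 (.cons 7 (.cons 8 (.cons 7 (.cons 7 (.cons 8 (.cons 6 (.cons 6 (.cons 5 (.cons 3 (.cons 4 (.cons 8 (.cons 12 (.cons 15 (.cons 21 (.cons 18 (.cons 27 (.cons 17 (.cons 30 (.cons 17 (.cons 14 (.cons 2 .nil))))))))))))))))))))))))))))))))) 51131
  (.cons (.cons 0 (.cons 0 (.cons 0 (.cons 0 (.cons 0 (.cons 0 (.cons 0 (.cons 5 (.cons 7 (.cons 6 (.cons 9 (.cons 7 (.cons 9 (.cons 8 (.cons 8 (.cons 7 (.cons 8 (.cons 6 (.cons 7 (.cons 5 (.cons 4 (.cons 2 (.cons 10 (.cons 11 (.cons 17 (.cons 20 (.cons 21 (.cons 26 (.cons 20 (.cons 29 (.cons 20 (.cons 14 (.cons 6 .nil))))))))))))))))))))))))))))))))) 52603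
  (.cons (.cons 0 (.cons 0 (.cons 0 (.cons 0 (.cons 0 (.cons 0 (.cons 1 (.cons 8 (.cons 6 (.cons 9 (.cons 8 (.cons 9 (.cons 9 (.cons 7 (.cons 9 (.cons 8 (.cons 8 (.cons 7 (.cons 7 (.cons 4 (.cons 7 (.cons 2 (.cons 9 (.cons 12 (.cons 16 (.cons 22 (.cons 21 (.cons 26 (.cons 22 (.cons 31 (.cons 20 (.cons 17 (.cons 8 .nil))))))))))))))))))))))))))))))))) 54080
  (.cons (.cons 0 (.cons 0 (.cons 0 (.cons 0 (.cons 0 (.cons 0 (.cons 4 (.cons 8 (.cons 8 (.cons 8 (.cons 9 (.cons 10 (.cons 8 (.cons 9 (.cons 9 (.cons 8 (.cons 9 (.cons 7 (.cons 7 (.cons 5 (.cons 5 (.cons 4 (.cons 10 (.cons 11 (.cons 19 (.cons 19 (.cons 25 (.cons 24 (.cons 26 (.cons 26 (.cons 28 (.cons 12 (.cons 15 .nil))))))))))))))))))))))))))))))))) 55487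
  (.cons (.cons 3 (.cons 0 (.cons 0 (.cons 0 (.cons 1 (.cons 0 (.cons 7 (.cons 6 (.cons 10 (.cons 9 (.cons 9 (.cons 9 (.cons 10 (.cons 9 (.cons 9 (.cons 8 (.cons 9 (.cons 7 (.cons 9 (.cons 5 (.cons 7 (.cons 0 (.cons 12 (.cons 12 (.cons 17 (.cons 22 (.cons 25 (.cons 24 (.cons 27 (.cons 28 (.cons 27 (.cons 13 (.cons 20 .nil))))))))))))))))))))))))))))))))) 56990
  (.cons (.cons 3 (.cons 0 (.cons 0 (.cons 0 (.cons 0 (.cons 1 (.cons 8 (.cons 6 (.cons 11 (.cons 8 (.cons 10 (.cons 11 (.cons 8 (.cons 10 (.cons 10 (.cons 8 (.cons 9 (.cons 6 (.cons 8 (.cons 8 (.cons 6 (.cons 4 (.cons 8 (.cons 13 (.cons 17 (.cons 22 (.cons 24 (.cons 26 (.cons 28 (.cons 27 (.cons 29 (.cons 12 (.cons 22 (.cons 1 (.cons 0 (.cons 0 (.cons 0 (.cons 0 (.cons 0 (.cons 1 (.cons 6 (.cons 4 .nil)))))))))))))))))))))))))))))))))))))))))) 58708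
  (.cons (.cons 2 (.cons 0 (.cons 0 (.cons 1 (.cons 0 (.cons 0 (.cons 10 (.cons 9 (.cons 7 (.cons 11 (.cons 10 (.cons 8 (.cons 12 (.cons 7 (.cons 12 (.cons 9 (.cons 7 (.cons 9 (.cons 9 (.cons 4 (.cons 7 (.cons 2 (.cons 11 (.cons 11 (.cons 21 (.cons 20 (.cons 25 (.cons 28 (.cons 24 (.cons 32 (.cons 26 (.cons 14 (.cons 23 (.cons 2 (.cons 0 (.cons 0 (.cons 0 (.cons 0 (.cons 2 (.cons 7 (.cons 8 (.cons 6 .nil)))))))))))))))))))))))))))))))))))))))))) 60445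
  (.cons (.cons 0 (.cons 0 (.cons 0 (.cons 0 (.cons 0 (.cons 2 (.cons 11 (.cons 8 (.cons 9 (.cons 10 (.cons 11 (.cons 9 (.cons 11 (.cons 9 (.cons 10 (.cons 9 (.cons 10 (.cons 7 (.cons 9 (.cons 5 (.cons 6 (.cons 2 (.cons 11 (.cons 13 (.cons 20 (.cons 20 (.cons 26 (.cons 26 (.cons 28 (.cons 29 (.cons 29 (.cons 14 (.cons 23 (.cons 4 (.cons 0 (.cons 0 (.cons 2 (.cons 2 (.cons 7 (.cons 7 (.cons 10 (.cons 8 .nil)))))))))))))))))))))))))))))))))))))))))) 62191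
  (.cons (.cons 2 (.cons 1 (.cons 1 (.cons 0 (.cons 0 (.cons 3 (.cons 9 (.cons 8 (.cons 11 (.cons 9 (.cons 11 (.cons 9 (.cons 11 (.cons 9 (.cons 11 (.cons 8 (.cons 10 (.cons 8 (.cons 8 (.cons 7 (.cons 4 (.cons 4 (.cons 11 (.cons 11 (.cons 22 (.cons 20 (.cons 25 (.cons 28 (.cons 27 (.cons 29 (.cons 31 (.cons 13 (.cons 24 (.cons 5 (.cons 0 (.cons 0 (.cons 3 (.cons 7 (.cons 7 (.cons 11 (.cons 10 (.cons 10 .nil)))))))))))))))))))))))))))))))))))))))))) 63951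
  (.cons (.cons 0 (.cons 0 (.cons 0 (.cons 0 (.cons 0 (.cons 4 (.cons 11 (.cons 8 (.cons 11 (.cons 9 (.cons 12 (.cons 10 (.cons 10 (.cons 11 (.cons 9 (.cons 10 (.cons 9 (.cons 9 (.cons 8 (.cons 6 (.cons 5 (.cons 3 (.cons 11 (.cons 13 (.cons 20 (.cons 20 (.cons 27 (.cons 29 (.cons 26 (.cons 31 (.cons 30 (.cons 14 (.cons 25 (.cons 6 (.cons 0 (.cons 1 (.cons 9 (.cons 6 (.cons 11 (.cons 10 (.cons 13 (.cons 11 .nil)))))))))))))))))))))))))))))))))))))))))) 65621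
  (.cons (.cons 0 (.cons 0 (.cons 1 (.cons 0 (.cons 1 (.cons 5 (.cons 9 (.cons 9 (.cons 13 (.cons 7 (.cons 13 (.cons 11 (.cons 9 (.cons 10 (.cons 12 (.cons 8 (.cons 11 (.cons 7 (.cons 9 (.cons 6 (.cons 5 (.cons 5 (.cons 9 (.cons 14 (.cons 19 (.cons 22 (.cons 26 (.cons 28 (.cons 28 (.cons 30 (.cons 31 (.cons 14 (.cons 26 (.cons 7 (.cons 0 (.cons 8 (.cons 7 (.cons 10 (.cons 11 (.cons 12 (.cons 14 (.cons 12 .nil)))))))))))))))))))))))))))))))))))))))))) 67391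
  (.cons (.cons 3 (.cons 0 (.cons 0 (.cons 1 (.cons 0 (.cons 6 (.cons 8 (.cons 12 (.cons 10 (.cons 9 (.cons 11 (.cons 12 (.cons 10 (.cons 10 (.cons 11 (.cons 9 (.cons 9 (.cons 9 (.cons 10 (.cons 5 (.cons 6 (.cons 2 (.cons 12 (.cons 13 (.cons 21 (.cons 20 (.cons 27 (.cons 28 (.cons 29 (.cons 29 (.cons 33 (.cons 13 (.cons 27 (.cons 8 (.cons 5 (.cons 8 (.cons 10 (.cons 10 (.cons 13 (.cons 13 (.cons 14 (.cons 14 .nil)))))))))))))))))))))))))))))))))))))))))) 69166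
  .nil)))))))))))))))))))))))))

/-- the rows for the second path -/
noncomputable def rwD2 : RL := shiftR 24814 rwD

theorem atD_wf : atD.Wf := by
  simp only [atD, AL.Wf]
  norm_num

theorem rowData_ok : rowData 1000 atD rwD = true := by decide +kernel

theorem Esum_ok : Esum 1000 atD rwD (Rlen rwD - 1) = 19949324 := by decide +kernel

theorem Rlen_ok : Rlen rwD = 25 := by decide +kernel

end Pool.Agent.Y795.PiH
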