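import Pool.Agent.Y795.PiH.Dat

/-!
# The data of the archimedean certificate: a piece of a path
-/

set_option autoImplicit false
set_option maxRecDepth 100000

namespace Pool.Agent.Y795.PiH

/-- a piece of the path -/
def edA0 : EL :=
  (.cons 18781696 116992 3 22188 11474 2017417 2057480 1940744
  (.cons 18735872 244224 3 22542 11059 1978898 2001620 1767487
  (.cons 18712320 355072 5 11336 5841 1967757 1972891 1868793
  (.cons 18596608 401664 49 1276 730 1864250 1966336 1881505
  (.cons 18560000 421376 40 523 276 1832292 1862809 1661794
  (.cons 18538752 433920 31 401 212 1814475 1831619 1623823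
  (.cons 18527744 440320 17 378 200 1805322 1813925 1609578
  (.cons 18516736 447232 22 299 160 1796293 1804853 1603471
  .nil))))))))

theorem okA0 : pathOk 1000 atD rwD edA0 18845184 0 = true := by decide +kernel

theorem goodA0 : GoodP 1000 atD rwD edA0 18845184 0 :=
  path_sound 1000 atD atD_wf rwD edA0 18845184 0 okA0

theorem eptA0 : ept edA0 18845184 0 = (18516736, 447232) := rfl

end Pool.Agent.Y795.PiH
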