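import Pool.Agent.Y795.PiH.Dat

/-!
# The data of the archimedean certificate: a piece of a path
-/

set_option autoImplicit false
set_option maxRecDepth 100000

namespace Pool.Agent.Y795.PiH

/-- a piece of the path -/
def edB0 : EL :=
  (.cons 19011072 850176 7 61876 62498 2080702 2358081 3906783
  (.cons 19161600 1456128 4 78050 93971 2435539 2738865 6388588
  (.cons 19206144 1681920 2 57539 59214 2833089 2913398 7556952
  (.cons 19132160 2212864 4 67013 80286 2985189 3193252 9748621
  (.cons 19039488 2713600 4 63658 78762 3266348 3492603 12130888
  (.cons 18929408 3197440 4 62029 77653 3570898 3812070 14732869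
  (.cons 18822400 3607040 3 70561 86187 3901321 4096214 17132388
  (.cons 18428928 3890432 4 60616 69751 4153498 4213567 18410633
  (.cons 18033920 4161536 4 59890 70465 4238839 4329357 19627562
  (.cons 17635328 4422400 4 59549 70995 4364332 4482704 21105216
  (.cons 17253888 4661248 3 75012 89650 4532392 4652912 22692406
  (.cons 16779008 4706816 4 59636 67641 4685563 4701519 23176782
  (.cons 16302848 4744192 4 59707 68340 4711840 4757643 23654629
  (.cons 15823104 4773632 4 60084 69058 4777844 4853035 24427461
  (.cons 15338496 4796672 4 60648 69725 4883098 4987959 25528426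
  (.cons 15036160 4808448 2 75645 84938 5032834 5085930 26347735
  (.cons 14569216 4646144 4 61797 67408 5115114 5137754 26584402
  (.cons 14097920 4477696 4 62565 68233 5150759 5206265 26945965
  (.cons 13620992 4304128 4 63445 69077 5230445 5319939 27737839
  (.cons 13137664 4127488 4 64328 69881 5355622 5479886 29020140
  (.cons 12957952 4062208 2 47804 49675 5520605 5556979 29685422
  (.cons 12669184 3624960 4 65503 69229 5488189 5560961 29646996
  (.cons 12376576 3181056 5 53170 54574 5432536 5471534 28325935
  (.cons 11993856 2604800 22 15726 15508 5425728 5445254 27515326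
  (.cons 11820544 2112768 52 5019 4944 5388494 5445811 27198891
  .nil)))))))))))))))))))))))))

theorem okB0 : pathOk 1000 atD rwD2 edB0 18845184 0 = true := by decide +kernel

theorem goodB0 : GoodP 1000 atD rwD2 edB0 18845184 0 :=
  path_sound 1000 atD atD_wf rwD2 edB0 18845184 0 okB0

theorem eptB0 : ept edB0 18845184 0 = (11820544, 2112768) := rfl

end Pool.Agent.Y795.PiH
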