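import Pool.Agent.Y795.PiH.Stm
import Pool.Agent.H336R2.HD.A5

/-!
# Irrationality exponent of `π` from Hankel determinants: the conclusion, with parameters
-/

set_option autoImplicit false

open Polynomial Filter Topology

namespace Pool.Agent.Y795.PiH

open Pool.Agent.H326R2.Pi

/-- the `p`-adic part -/
theorem padic (ho : S_odd) (ht : S_two) (hs : S_sum) (ε : ℝ) (hε : 0 < ε) :
    ∀ᶠ p : ℕ in atTop, ∀ (a : ℤ) (b : ℕ), 1 ≤ b → DET p (a / b) ≠ 0 →
    ∑ q ∈ (Finset.range (4 * p + 1)).filter Nat.Prime,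
      Real.log ((padicNorm q ((b : ℚ) ^ (p + 1) * DET p (a / b)) : ℚ) : ℝ) ≤
    (15 / 4 + Real.log 2 / 6 + ε) * (p : ℝ) ^ 2 := by
  filter_upwards [ht (ε / 2) (by linarith), hs (ε / 2) (by linarith), eventually_ge_atTop 1]
    with p h1 h2 hp a b hb hD
  have h3 := h1 a b hb hD
  have hbq : (b : ℚ) ≠ 0 := by exact_mod_cast (by omega : b ≠ 0)
  set z : ℚ := (b : ℚ) ^ (p + 1) * DET p (a / b) with hz
  have hz0 : z ≠ 0 := mul_ne_zero (pow_ne_zero _ hbq) hD
  have hsplit : (Finset.range (4 * p + 1)).filter Nat.Prime =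
      insert 2 ((Finset.range (4 * p + 1)).filter (fun q => q.Prime ∧ q ≠ 2)) := by
    ext q
    simp only [Finset.mem_insert, Finset.mem_filter, Finset.mem_range]
    constructor
    · rintro ⟨h4, h5⟩
      by_cases h6 : q = 2
      · exact Or.inl h6
      · exact Or.inr ⟨h4, h5, h6⟩
    · rintro (h4 | ⟨h4, h5, h6⟩)
      · subst h4
        exact ⟨by omega, Nat.prime_two⟩
      · exact ⟨h4, h5⟩
  rw [hsplit, Finset.sum_insert (by simp)]
  have h4 : ∑ q ∈ (Finset.range (4 * p + 1)).filter (fun q => q.Prime ∧ q ≠ 2),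
      Real.log ((padicNorm q z : ℚ) : ℝ) ≤
      ∑ q ∈ (Finset.range (4 * p + 1)).filter (fun q => q.Prime ∧ q ≠ 2),
        (ex p q : ℝ) * Real.log q := by
    apply Finset.sum_le_sum
    intro q hq
    simp only [Finset.mem_filter, Finset.mem_range] at hq
    obtain ⟨hq1, hq2, hq3⟩ := hq
    have : Fact q.Prime := ⟨hq2⟩
    have hpos : 0 < padicNorm q z :=
      lt_of_le_of_ne (padicNorm.nonneg _) (Ne.symm (padicNorm.nonzero hz0))
    have hle : padicNorm q z ≤ (q : ℚ) ^ ex p q := by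
      obtain ⟨h5, h6⟩ := ho p hp a b hb q hq2 hq3
      unfold ex
      split_ifs with h7
      · exact h6 h7 (by omega)
      · exact h5
    have hle' : ((padicNorm q z : ℚ) : ℝ) ≤ (q : ℝ) ^ ex p q := by exact_mod_cast hle
    have hpos' : (0 : ℝ) < ((padicNorm q z : ℚ) : ℝ) := by exact_mod_cast hpos
    have := Real.log_le_log hpos' hle'
    rwa [Real.log_pow] at this
  nlinarith

/-- no good approximation with a large denominator -/
theorem large_den (c : Cert) (hv : c.Valid) (ho : S_odd) (ht : S_two) (hs : S_sum) (hn : S_nv)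
    (ha : S_arch) (hZ : S_Z) (k μ : ℝ) (hk : 1 ≤ k)
    (h1 : k < c.E - 15 / 4 - Real.log 2 / 6) (h0 : 0 < c.s) (h2 : c.s < μ * k) : S_mu μ := by
  have hk0 : 0 < k := by linarith
  set P : ℝ := 15 / 4 + Real.log 2 / 6 with hP
  set η : ℝ := (c.E - P - k) / 3 with hη
  have hη0 : 0 < η := by rw [hη, hP]; linarith
  obtain ⟨L0, hL0⟩ := hZ ((μ * k - c.s) / c.s) (div_pos (by linarith) h0)
  have hev := (ha c hv η hη0).and (padic ho ht hs η hη0)
  rw [eventually_atTop] at hev
  obtain ⟨n0, hn0⟩ := hev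
  -- the condition on the denominator
  obtain ⟨q0, hq0⟩ := exists_nat_gt (Real.exp (k * (|L0| + n0 + 10 ^ 6 + 1 + k / η)))
  refine ⟨q0, fun b hb a => ?_⟩
  by_contra hcon
  push Not at hcon
  have hbR : Real.exp (k * (|L0| + n0 + 10 ^ 6 + 1 + k / η)) < b :=
    hq0.trans_le (by exact_mod_cast hb)
  have hbpos : (0 : ℝ) < b := (Real.exp_pos _).trans hbR
  have hb1 : 0 < b := by exact_mod_cast hbpos
  set L : ℝ := Real.log b with hL
  have hLbig : k * (|L0| + n0 + 10 ^ 6 + 1 + k / η) < L := by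
    rw [hL]
    exact (Real.lt_log_iff_exp_lt hbpos).2 hbR
  have hn0c : (0 : ℝ) ≤ n0 := Nat.cast_nonneg _
  have hL0c : (0 : ℝ) ≤ |L0| := abs_nonneg _
  have hL0d : L0 ≤ |L0| := le_abs_self _
  have hkη : 0 < k / η := div_pos hk0 hη0
  have hLL : |L0| + n0 + 10 ^ 6 + 1 + k / η < L / k := by
    rw [lt_div_iff₀ hk0]
    linarith
  obtain ⟨n, hnp, hmod, hnL, hnU⟩ := hL0 (L / k) (by linarith)
  have : Fact n.Prime := ⟨hnp⟩
  have hnR : |L0| + n0 + 10 ^ 6 + 1 + k / η < n := by linarith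
  have hnn0 : n0 ≤ n := by
    have : (n0 : ℝ) ≤ n := by linarith
    exact_mod_cast this
  have hnp0 : 10 ^ 6 ≤ n := by
    have : ((10 ^ 6 : ℕ) : ℝ) ≤ n := by push_cast; linarith
    exact_mod_cast this
  have hn1 : 1 ≤ n := hnp.one_lt.le
  have hnpos : (0 : ℝ) < n := by linarith
  -- the rational number
  set x : ℚ := (a : ℚ) / b with hx
  have hbq : (b : ℚ) ≠ 0 := by exact_mod_cast hb1.ne'
  have hxR : (x : ℝ) = (a : ℝ) / b := by rw [hx]; push_cast; rfl
  have hDne : DET n x ≠ 0 := hn n hnp hnp0 hmod x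
  obtain ⟨hAn, hPn⟩ := hn0 n hnn0
  -- the distance
  have hdist : |(x : ℝ) - Real.pi| ≤ Real.exp (-(c.s * n)) := by
    rw [abs_sub_comm, hxR]
    refine hcon.le.trans ?_
    have h3 : (b : ℝ) ^ (-μ) = Real.exp (-(μ * L)) := by
      rw [Real.rpow_def_of_pos hbpos]
      congr 1
      ring
    rw [h3]
    apply Real.exp_le_exp.2
    have h4 : (n : ℝ) ≤ (1 + (μ * k - c.s) / c.s) * (L / k) := hnU
    have h5 : c.s * n ≤ c.s * ((1 + (μ * k - c.s) / c.s) * (L / k)) :=
      mul_le_mul_of_nonneg_left h4 h0.le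
    have h6 : c.s * ((1 + (μ * k - c.s) / c.s) * (L / k)) = μ * L := by
      field_simp
      ring
    linarith
  have hArch := hAn x hdist hDne
  have hP1 := hPn a b hb1 hDne
  -- product formula
  set z : ℚ := (b : ℚ) ^ (n + 1) * DET n x with hz
  have hz0 : z ≠ 0 := mul_ne_zero (pow_ne_zero _ hbq) hDne
  set S : Finset ℕ := (Finset.range (4 * n + 1)).filter Nat.Prime with hS
  have hpf := Pool.Agent.H336R2.HD.A5_prod_formula z hz0 S (fun p hp => (Finset.mem_filter.1 hp).2)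
    (fun p => ((padicNorm p z : ℚ) : ℝ)) (fun p _ => le_rfl) (fun p hp hpS => by
      rw [hS, Finset.mem_filter, Finset.mem_range] at hpS
      have h3 : 4 * n < p := by
        by_contra h; exact hpS ⟨by omega, hp⟩
      have h4 := (ho n hn1 a b hb1 p hp (by omega)).1
      have h5 : Nat.log p (4 * n) = 0 := Nat.log_eq_zero_iff.2 (Or.inl h3)
      rw [h5, mul_zero, pow_zero] at h4
      exact h4)
  have hpos : ∀ p ∈ S, 0 < ((padicNorm p z : ℚ) : ℝ) := by
    intro p hp
    have : Fact p.Prime := ⟨(Finset.mem_filter.1 hp).2⟩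
    have h3 : 0 < padicNorm p z :=
      lt_of_le_of_ne (padicNorm.nonneg _) (Ne.symm (padicNorm.nonzero hz0))
    exact_mod_cast h3
  have hprodpos : 0 < ∏ p ∈ S, ((padicNorm p z : ℚ) : ℝ) := Finset.prod_pos hpos
  have hzabs : 0 < |(z : ℝ)| := abs_pos.2 (by exact_mod_cast hz0)
  have hlog := Real.log_nonneg hpf
  rw [Real.log_mul hzabs.ne' hprodpos.ne', Real.log_prod (fun p hp => (hpos p hp).ne')] at hlog
  have hzlog : Real.log |(z : ℝ)| = (n + 1) * L + Real.log |((DET n x : ℚ) : ℝ)| := by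
    rw [hz]
    push_cast
    rw [abs_mul, Real.log_mul (abs_pos.2 (by positivity)).ne' (abs_pos.2 (by exact_mod_cast hDne)).ne',
      abs_of_pos (by positivity), Real.log_pow]
    push_cast
    ring
  have h3 : (n + 1) * L ≤ k * (n : ℝ) ^ 2 + k * n := by
    have h4 : L ≤ k * n := by
      have h6 : L / k < n := hnL
      rw [div_lt_iff₀ hk0] at h6
      linarith
    calc ((n : ℝ) + 1) * L ≤ (n + 1) * (k * n) := by gcongr
      _ = _ := by ring
  have h4 : k * n < η * (n : ℝ) ^ 2 := by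
    have h5 : k / η < n := by linarith
    rw [div_lt_iff₀ hη0] at h5
    nlinarith
  have h5 : η * (n : ℝ) ^ 2 * 3 = (c.E - P - k) * (n : ℝ) ^ 2 := by rw [hη]; ring
  nlinarith

end Pool.Agent.Y795.PiH
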