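import Pool.Agent.Y795.PiH.Chk

/-!
# Soundness of the checker, part 1: discs in the `w`-plane
-/

set_option autoImplicit false
set_option maxRecDepth 100000

open Polynomial

namespace Pool.Agent.Y795.PiH

theorem ad_cast (a b : ℕ) : ((ad a b : ℕ) : ℝ) = |(a : ℝ) - b| := by
  change (((a - b) + (b - a) : ℕ) : ℝ) = _
  rcases le_total a b with h | h
  · have h' : (a : ℝ) ≤ b := by exact_mod_cast h
    rw [Nat.sub_eq_zero_of_le h, zero_add, Nat.cast_sub h, abs_of_nonpos (by linarith)]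
    ring
  · have h' : (b : ℝ) ≤ a := by exact_mod_cast h
    rw [Nat.sub_eq_zero_of_le h, add_zero, Nat.cast_sub h, abs_of_nonneg (by linarith)]

theorem ad_sq (a b : ℕ) : ((ad a b : ℕ) : ℝ) ^ 2 = ((a : ℝ) - b) ^ 2 := by
  rw [ad_cast, sq_abs]

theorem mm_ge (a b : ℕ) : 2 * Real.sqrt ((a : ℝ) ^ 2 + (b : ℝ) ^ 2) ≤ (mm a b : ℕ) := by
  have hb : (0 : ℝ) ≤ b := Nat.cast_nonneg b
  have ha : (0 : ℝ) ≤ a := Nat.cast_nonneg a
  have e : ((mm a b : ℕ) : ℝ) = ((a + a + (b + (b - a)) : ℕ) : ℝ) := rfl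
  have key : (a : ℝ) ^ 2 + (b : ℝ) ^ 2 ≤ (((mm a b : ℕ) : ℝ) / 2) ^ 2 := by
    rw [e]
    rcases le_total a b with h | h
    · have h' : (a : ℝ) ≤ b := by exact_mod_cast h
      push_cast [Nat.cast_sub h]
      nlinarith
    · have h' : (b : ℝ) ≤ a := by exact_mod_cast h
      rw [Nat.sub_eq_zero_of_le h]
      push_cast
      nlinarith
  have h1 := Real.sqrt_le_sqrt key
  rw [Real.sqrt_sq (by positivity)] at h1
  linarith

/-- points of the `w`-plane -/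
noncomputable def cpt (U V : ℕ) : ℂ :=
  ⟨((U : ℝ) - 16777216) / 1048576, ((V : ℝ) - 16777216) / 1048576⟩

theorem norm_sq_cpt_sub (U V a b : ℕ) : ‖cpt U V - cpt a b‖ ^ 2 * 1048576 ^ 2 =
    ((ad U a : ℕ) : ℝ) ^ 2 + ((ad V b : ℕ) : ℝ) ^ 2 := by
  rw [← Complex.normSq_eq_norm_sq, Complex.normSq_apply, ad_sq, ad_sq]
  simp only [cpt, Complex.sub_re, Complex.sub_im]
  ring

theorem ub_bound (U V r a b : ℕ) (w : ℂ) (hw : ‖w - cpt U V‖ * 1048576 ≤ r) :
    ‖w - cpt a b‖ ^ 2 * 1048576 ^ 2 ≤ ((ub (ad U a) (ad V b) r : ℕ) : ℝ) := by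
  set du := ad U a with hdu
  set dv := ad V b with hdv
  have h1 := norm_sq_cpt_sub U V a b
  rw [← hdu, ← hdv] at h1
  have h2 := mm_ge du dv
  set d : ℝ := ‖cpt U V - cpt a b‖ * 1048576 with hd
  have hd0 : 0 ≤ d := by positivity
  have h3 : d ^ 2 = (du : ℝ) ^ 2 + (dv : ℝ) ^ 2 := by rw [hd, mul_pow, h1]
  rw [← h3, Real.sqrt_sq hd0] at h2
  have h4 : ‖w - cpt a b‖ * 1048576 ≤ r + d := by
    have : w - cpt a b = (w - cpt U V) + (cpt U V - cpt a b) := by ring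
    rw [this]
    have := norm_add_le (w - cpt U V) (cpt U V - cpt a b)
    nlinarith
  have h5 : (‖w - cpt a b‖ * 1048576) ^ 2 ≤ (r + d) ^ 2 :=
    pow_le_pow_left₀ (by positivity) h4 2
  have e : ((ub du dv r : ℕ) : ℝ) = (du : ℝ) ^ 2 + (dv : ℝ) ^ 2 + r * ((mm du dv : ℕ) + r) := by
    change (((du * du + dv * dv) + r * (mm du dv + r) : ℕ) : ℝ) = _
    push_cast; ring
  rw [e, ← h3]
  have hr : (0 : ℝ) ≤ r := Nat.cast_nonneg r
  nlinarith

/-- the quadratic polynomial of an atom -/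
noncomputable def gp (a b : ℕ) : ℚ[X] :=
  (X - C (((a : ℚ) - 16777216) / 1048576)) ^ 2 + C ((((b : ℚ) - 16777216) / 1048576) ^ 2)

theorem aeval_gp (a b b' : ℕ) (h : b + b' = 33554432) (w : ℂ) :
    aeval w (gp a b) = (w - cpt a b) * (w - cpt a b') := by
  have hb : (b' : ℝ) = 33554432 - b := by
    have : ((b + b' : ℕ) : ℝ) = 33554432 := by rw [h]; norm_num
    push_cast at this
    linarith
  have e1 : cpt a b = (((a : ℂ) - 16777216) / 1048576) + (((b : ℂ) - 16777216) / 1048576) * Complex.I := by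
    apply Complex.ext <;> simp [cpt]
  have e2 : cpt a b' = (((a : ℂ) - 16777216) / 1048576) - (((b : ℂ) - 16777216) / 1048576) * Complex.I := by
    apply Complex.ext
    · simp [cpt]
    · simp only [cpt, hb]
      simp
      ring
  rw [e1, e2]
  unfold gp
  rw [map_add, map_pow, map_sub, aeval_X, aeval_C, aeval_C]
  push_cast
  simp only [eq_ratCast]
  push_cast
  linear_combination (((b : ℂ) - 16777216) / 1048576) ^ 2 * Complex.I_sq

/-- well-formed lists of atoms -/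
def AL.Wf : AL → Prop
  | .nil => True
  | .cons _ b b' l => b + b' = 33554432 ∧ l.Wf

/-- the polynomial with the given exponents -/
noncomputable def polyOf : AL → NL → ℚ[X]
  | .cons a b _ l, .cons k A => gp a b ^ k * polyOf l A
  | _, _ => 1

/-- its degree -/
def degOf : AL → NL → ℕ
  | .cons _ _ _ l, .cons k A => 2 * k + degOf l A
  | _, _ => 0

theorem monic_gp (a b : ℕ) : (gp a b).Monic ∧ (gp a b).natDegree = 2 := by
  set c : ℚ := ((a : ℚ) - 16777216) / 1048576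
  set d : ℚ := (((b : ℚ) - 16777216) / 1048576) ^ 2
  have h1 : ((X - C c) ^ 2 : ℚ[X]).Monic := (monic_X_sub_C c).pow 2
  have h2 : ((X - C c) ^ 2 : ℚ[X]).natDegree = 2 := by
    rw [(monic_X_sub_C c).natDegree_pow, natDegree_X_sub_C]
  have h3 : (C d : ℚ[X]).degree < ((X - C c) ^ 2 : ℚ[X]).degree := by
    rw [degree_eq_natDegree h1.ne_zero, h2]
    exact lt_of_le_of_lt degree_C_le (by norm_num)
  have e : gp a b = (X - C c) ^ 2 + C d := rfl
  rw [e]
  exact ⟨h1.add_of_left h3, by rw [natDegree_add_eq_left_of_degree_lt h3, h2]⟩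

theorem monic_polyOf : ∀ (l : AL) (A : NL), (polyOf l A).Monic ∧ (polyOf l A).natDegree = degOf l A
  | .cons a b b' l, .cons k A => by
    obtain ⟨h1, h2⟩ := monic_polyOf l A
    obtain ⟨h3, h4⟩ := monic_gp a b
    unfold polyOf degOf
    exact ⟨(h3.pow k).mul h1, by
      rw [(h3.pow k).natDegree_mul h1, h3.natDegree_pow, h4, h2, mul_comm k 2]⟩
  | .nil, _ => by
    unfold polyOf degOf
    exact ⟨monic_one, natDegree_one⟩
  | .cons _ _ _ _, .nil => by
    unfold polyOf degOf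
    exact ⟨monic_one, natDegree_one⟩

theorem poly_bound (U V r : ℕ) (w : ℂ) (hw : ‖w - cpt U V‖ * 1048576 ≤ r) :
    ∀ (l : AL) (A : NL), l.Wf →
    ‖aeval w (polyOf l A)‖ ^ 2 * 1048576 ^ (2 * degOf l A) ≤ ((pr A (ul U V r l) : ℕ) : ℝ)
  | .cons a b b' l, .cons k A, hl => by
    have ih := poly_bound U V r w hw l A hl.2
    have h1 := ub_bound U V r a b w hw
    have h2 := ub_bound U V r a b' w hw
    have e1 : pr (.cons k A) (ul U V r (.cons a b b' l)) =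
        (ub (ad U a) (ad V b) r * ub (ad U a) (ad V b') r) ^ k * pr A (ul U V r l) := rfl
    rw [e1]
    unfold polyOf degOf
    rw [map_mul, map_pow, aeval_gp a b b' hl.1, norm_mul, norm_pow, norm_mul]
    push_cast
    calc ((‖w - cpt a b‖ * ‖w - cpt a b'‖) ^ k * ‖aeval w (polyOf l A)‖) ^ 2 *
          1048576 ^ (2 * (2 * k + degOf l A))
        = ((‖w - cpt a b‖ ^ 2 * 1048576 ^ 2) * (‖w - cpt a b'‖ ^ 2 * 1048576 ^ 2)) ^ k *
          (‖aeval w (polyOf l A)‖ ^ 2 * 1048576 ^ (2 * degOf l A)) := by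
          rw [show 2 * (2 * k + degOf l A) = 4 * k + 2 * degOf l A by ring, pow_add]
          generalize (1048576 : ℝ) = σ
          ring
      _ ≤ _ := by
          apply mul_le_mul _ ih (by positivity) (by positivity)
          apply pow_le_pow_left₀ (by positivity)
          exact mul_le_mul h1 h2 (by positivity) (by positivity)
  | .nil, .cons k A, _ => by
    have e1 : pr (.cons k A) (ul U V r .nil) = 1 := rfl
    rw [e1]
    unfold polyOf degOf
    simp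
  | .nil, .nil, _ => by
    have e1 : pr .nil (ul U V r .nil) = 1 := rfl
    rw [e1]
    unfold polyOf degOf
    simp
  | .cons a b b' l, .nil, _ => by
    have e1 : pr .nil (ul U V r (.cons a b b' l)) = 1 := rfl
    rw [e1]
    unfold polyOf degOf
    simp

theorem xx_bound (U V r : ℕ) (w : ℂ) (hw : ‖w - cpt U V‖ * 1048576 ≤ r) :
    ‖w - 2‖ ^ 2 * ‖w - 3‖ ^ 4 * 1048576 ^ 6 ≤ ((xx U V r : ℕ) : ℝ) := by
  have e2 : cpt 18874368 16777216 = 2 := by
    apply Complex.ext <;> simp [cpt]; norm_num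
  have e3 : cpt 19922944 16777216 = 3 := by
    apply Complex.ext <;> simp [cpt]; norm_num
  have h2 := ub_bound U V r 18874368 16777216 w hw
  have h3 := ub_bound U V r 19922944 16777216 w hw
  rw [e2] at h2
  rw [e3] at h3
  have e : xx U V r = ub (ad U 18874368) (ad V 16777216) r *
      (ub (ad U 19922944) (ad V 16777216) r * ub (ad U 19922944) (ad V 16777216) r) := rfl
  rw [e]
  push_cast
  calc ‖w - 2‖ ^ 2 * ‖w - 3‖ ^ 4 * 1048576 ^ 6 = (‖w - 2‖ ^ 2 * 1048576 ^ 2) *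
        ((‖w - 3‖ ^ 2 * 1048576 ^ 2) * (‖w - 3‖ ^ 2 * 1048576 ^ 2)) := by ring
    _ ≤ _ := mul_le_mul h2 (mul_le_mul h3 h3 (by positivity) (Nat.cast_nonneg _)) (by positivity)
        (Nat.cast_nonneg _)

theorem lw_bound (U V r : ℕ) (w : ℂ) (hw : ‖w - cpt U V‖ * 1048576 ≤ r) (h1 : 1 ≤ lw U V r) :
    ((lw U V r : ℕ) : ℝ) ≤ ‖w ^ 2 - 8‖ ^ 2 * 1048576 ^ 4 := by
  set au := ad U 16777216 with hau
  set av := ad V 16777216 with hav
  set α := ad (au * au) (av * av + 8796093022208) with hα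
  have hr : (0 : ℝ) ≤ r := Nat.cast_nonneg r
  have e : lw U V r = (α * α + 4 * ((au * av) * (au * av))) -
      mm α (2 * (au * av)) * (r * (mm au av + r)) := rfl
  set c := cpt U V with hc
  -- `|c|`
  have hcn : (‖c‖ * 1048576) ^ 2 = (au : ℝ) ^ 2 + (av : ℝ) ^ 2 := by
    rw [hau, hav, ad_sq, ad_sq, mul_pow, ← Complex.normSq_eq_norm_sq, Complex.normSq_apply, hc]
    simp only [cpt]
    push_cast
    ring
  have hcm : 2 * (‖c‖ * 1048576) ≤ ((mm au av : ℕ) : ℝ) := by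
    have := mm_ge au av
    rwa [← hcn, Real.sqrt_sq (by positivity)] at this
  -- `|c² - 8|`
  have hLn : (‖c ^ 2 - 8‖ * 1048576 ^ 2) ^ 2 = (α : ℝ) ^ 2 + ((2 * (au * av) : ℕ) : ℝ) ^ 2 := by
    rw [hα, ad_sq, mul_pow, ← Complex.normSq_eq_norm_sq, Complex.normSq_apply, hc]
    push_cast
    have e1 : (au : ℝ) ^ 2 = ((U : ℝ) - 16777216) ^ 2 := by rw [hau, ad_sq]; norm_num
    have e2 : (av : ℝ) ^ 2 = ((V : ℝ) - 16777216) ^ 2 := by rw [hav, ad_sq]; norm_num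
    have e3 : (2 * ((au : ℝ) * av)) ^ 2 = 4 * (au : ℝ) ^ 2 * (av : ℝ) ^ 2 := by ring
    have e4 : (au : ℝ) * au = (au : ℝ) ^ 2 := by ring
    have e5 : (av : ℝ) * av = (av : ℝ) ^ 2 := by ring
    rw [e3, e4, e5, e1, e2]
    simp only [cpt, Complex.sub_re, Complex.sub_im, pow_two, Complex.mul_re, Complex.mul_im,
      Complex.re_ofNat, Complex.im_ofNat]
    ring
  have hLm : 2 * (‖c ^ 2 - 8‖ * 1048576 ^ 2) ≤ ((mm α (2 * (au * av)) : ℕ) : ℝ) := by
    have := mm_ge α (2 * (au * av))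
    rwa [← hLn, Real.sqrt_sq (by positivity)] at this
  -- the perturbation
  set L : ℝ := ‖c ^ 2 - 8‖ * 1048576 ^ 2 with hL
  have hL0 : 0 ≤ L := by positivity
  set ee : ℝ := r * (((mm au av : ℕ) : ℝ) + r) with hee
  have hee0 : 0 ≤ ee := mul_nonneg hr (add_nonneg (Nat.cast_nonneg _) hr)
  have hpert : L - ee ≤ ‖w ^ 2 - 8‖ * 1048576 ^ 2 := by
    have h2 : c ^ 2 - 8 = (w ^ 2 - 8) - ((w - c) * (w - c) + 2 * (w - c) * c) := by ring
    have h3 : ‖c ^ 2 - 8‖ ≤ ‖w ^ 2 - 8‖ + (‖w - c‖ * ‖w - c‖ + 2 * ‖w - c‖ * ‖c‖) := by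
      rw [h2]
      refine (norm_sub_le _ _).trans ?_
      gcongr
      refine (norm_add_le _ _).trans ?_
      rw [norm_mul, norm_mul, norm_mul]
      simp
    set δ : ℝ := ‖w - c‖ * 1048576 with hδ
    have hδ0 : 0 ≤ δ := by positivity
    have h4 : L ≤ ‖w ^ 2 - 8‖ * 1048576 ^ 2 + (δ * δ + 2 * δ * (‖c‖ * 1048576)) := by
      rw [hL, hδ]
      nlinarith
    have h5 : δ * δ + 2 * δ * (‖c‖ * 1048576) ≤ ee := by
      have h6 : δ * δ ≤ r * r := mul_le_mul hw hw hδ0 hr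
      have h7 : δ * (2 * (‖c‖ * 1048576)) ≤ r * ((mm au av : ℕ) : ℝ) :=
        mul_le_mul hw hcm (by positivity) hr
      rw [hee]
      nlinarith
    linarith
  -- conclusion
  have hle : mm α (2 * (au * av)) * (r * (mm au av + r)) < α * α + 4 * ((au * av) * (au * av)) := by
    rw [e] at h1
    omega
  have hcast : ((lw U V r : ℕ) : ℝ) = L ^ 2 - ((mm α (2 * (au * av)) : ℕ) : ℝ) * ee := by
    rw [e, Nat.cast_sub hle.le, hLn]
    push_cast
    rw [hee]
    ring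
  have hpos : (0 : ℝ) < (lw U V r : ℕ) := by exact_mod_cast (by omega : 0 < lw U V r)
  rw [hcast] at hpos ⊢
  have h8 : 2 * L * ee ≤ ((mm α (2 * (au * av)) : ℕ) : ℝ) * ee := mul_le_mul_of_nonneg_right hLm hee0
  have h9 : ee ≤ L := by
    by_contra hlt
    push Not at hlt
    nlinarith
  have h10 : (L - ee) ^ 2 ≤ (‖w ^ 2 - 8‖ * 1048576 ^ 2) ^ 2 :=
    pow_le_pow_left₀ (by linarith) hpert 2
  calc L ^ 2 - ((mm α (2 * (au * av)) : ℕ) : ℝ) * ee ≤ (L - ee) ^ 2 := by nlinarith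
    _ ≤ _ := h10
    _ = _ := by ring

/-- the rows hold at `w` -/
def RowsHold (D : ℕ) (at_ : AL) (w : ℂ) : RL → Prop
  | .nil => True
  | .cons A e l => ‖aeval w (polyOf at_ A)‖ ^ 2 * W1 w ^ D * 1048576 ^ (2 * degOf at_ A + 2 * D) ≤ 2 ^ e ∧
      RowsHold D at_ w l

theorem bb_true {a b : Bool} (h : bb a b = true) : a = true ∧ b = true := by
  cases a
  · exact absurd h (by simp [bb])
  · exact ⟨rfl, h⟩

theorem disc_sound (D : ℕ) (at_ : AL) (hat : at_.Wf) (U V r : ℕ) (w : ℂ)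
    (hw : ‖w - cpt U V‖ * 1048576 ≤ r) (rw_ : RL) (h : discOk D at_ rw_ U V r = true) :
    w ^ 2 ≠ 8 ∧ RowsHold D at_ w rw_ := by
  obtain ⟨h1, h2⟩ := bb_true h
  have h1' : 1 ≤ lw U V r := Nat.le_of_ble_eq_true h1
  have hlw := lw_bound U V r w hw h1'
  have hxx := xx_bound U V r w hw
  have hlpos : (0 : ℝ) < (lw U V r : ℕ) := by exact_mod_cast (by omega : 0 < lw U V r)
  have hypos : 0 < ‖w ^ 2 - 8‖ := by
    rcases (norm_nonneg (w ^ 2 - 8)).eq_or_lt with h0 | h0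
    · rw [← h0] at hlw
      norm_num at hlw
      linarith
    · exact h0
  refine ⟨fun h8 => by rw [h8, sub_self, norm_zero] at hypos; exact lt_irrefl _ hypos, ?_⟩
  -- the weight
  have hW : W1 w ^ D * 1048576 ^ (2 * D) ≤ ((xx U V r ^ D : ℕ) : ℝ) / ((lw U V r ^ D : ℕ) : ℝ) := by
    have h3 : W1 w * 1048576 ^ 2 ≤ ((xx U V r : ℕ) : ℝ) / ((lw U V r : ℕ) : ℝ) := by
      rw [le_div_iff₀ hlpos]
      unfold W1
      calc ‖w - 2‖ ^ 2 * ‖w - 3‖ ^ 4 / ‖w ^ 2 - 8‖ ^ 2 * 1048576 ^ 2 * ((lw U V r : ℕ) : ℝ)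
          ≤ ‖w - 2‖ ^ 2 * ‖w - 3‖ ^ 4 / ‖w ^ 2 - 8‖ ^ 2 * 1048576 ^ 2 *
            (‖w ^ 2 - 8‖ ^ 2 * 1048576 ^ 4) := by gcongr
        _ = ‖w - 2‖ ^ 2 * ‖w - 3‖ ^ 4 * 1048576 ^ 6 := by field_simp
        _ ≤ _ := hxx
    push_cast
    rw [← div_pow, pow_mul, ← mul_pow]
    apply pow_le_pow_left₀ _ h3
    unfold W1
    positivity
  have hl : (0 : ℝ) < ((lw U V r ^ D : ℕ) : ℝ) := by push_cast; positivity
  have key : ∀ l : RL, rowsOk (ul U V r at_) (Nat.pow (xx U V r) D) (Nat.pow (lw U V r) D) l = true →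
      RowsHold D at_ w l := by
    intro l
    induction l with
    | nil => intro _; trivial
    | cons A e l ih =>
      intro hl'
      obtain ⟨h3, h4⟩ := bb_true hl'
      refine ⟨?_, ih h4⟩
      have h5 : pr A (ul U V r at_) * xx U V r ^ D ≤ lw U V r ^ D * 2 ^ e := Nat.le_of_ble_eq_true h3
      have h6 : (((pr A (ul U V r at_) : ℕ) : ℝ)) * ((xx U V r ^ D : ℕ) : ℝ) ≤
          ((lw U V r ^ D : ℕ) : ℝ) * 2 ^ e := by exact_mod_cast h5
      have h7 := poly_bound U V r w hw at_ A hat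
      calc ‖aeval w (polyOf at_ A)‖ ^ 2 * W1 w ^ D * 1048576 ^ (2 * degOf at_ A + 2 * D)
          = (‖aeval w (polyOf at_ A)‖ ^ 2 * 1048576 ^ (2 * degOf at_ A)) *
            (W1 w ^ D * 1048576 ^ (2 * D)) := by rw [pow_add]; ring
        _ ≤ ((pr A (ul U V r at_) : ℕ) : ℝ) *
            (((xx U V r ^ D : ℕ) : ℝ) / ((lw U V r ^ D : ℕ) : ℝ)) := by
            apply mul_le_mul h7 hW _ (by positivity)
            unfold W1
            positivity
        _ = ((pr A (ul U V r at_) : ℕ) : ℝ) * ((xx U V r ^ D : ℕ) : ℝ) /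
            ((lw U V r ^ D : ℕ) : ℝ) := by ring
        _ ≤ 2 ^ e := by
            rw [div_le_iff₀ hl]
            linarith
  exact key rw_ h2

end Pool.Agent.Y795.PiH
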