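import Pool.Agent.Y795.PiH.Snd1

/-!
# Soundness of the checker, part 2: cells, edges, paths
-/

set_option autoImplicit false

open Polynomial

namespace Pool.Agent.Y795.PiH

/-- points of the `x`-plane -/
noncomputable def xpt (X Y : ℕ) : ℂ := ⟨((X : ℝ) - 16777216) / 1048576, (Y : ℝ) / 1048576⟩

theorem norm_le_two_of (a b : ℝ) (ha : |a| ≤ 1) (hb : |b| ≤ 1) : ‖(⟨a, b⟩ : ℂ)‖ ≤ 2 := by
  refine (Complex.norm_le_abs_re_add_abs_im _).trans ?_
  simp only
  linarith

theorem norm_xpt (X Y : ℕ) : (‖xpt X Y‖ * 1048576) ^ 2 =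
    ((ad X 16777216 * ad X 16777216 + Y * Y : ℕ) : ℝ) := by
  rw [mul_pow, ← Complex.normSq_eq_norm_sq, Complex.normSq_apply]
  push_cast
  have e : ((ad X 16777216 : ℕ) : ℝ) * ((ad X 16777216 : ℕ) : ℝ) = ((X : ℝ) - 16777216) ^ 2 := by
    rw [← pow_two, ad_sq]; norm_num
  rw [e]
  simp only [xpt]
  ring

theorem norm_xpt2 (X Y : ℕ) : (‖xpt X Y ^ 2 - 2‖ * 1048576 ^ 2) ^ 2 =
    ((ad (ad X 16777216 * ad X 16777216) (Y * Y + 2199023255552) *
      ad (ad X 16777216 * ad X 16777216) (Y * Y + 2199023255552) +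
      4 * ((ad X 16777216 * Y) * (ad X 16777216 * Y)) : ℕ) : ℝ) := by
  rw [mul_pow, ← Complex.normSq_eq_norm_sq, Complex.normSq_apply]
  set ax := ad X 16777216 with hax
  have e0 : (ax : ℝ) ^ 2 = ((X : ℝ) - 16777216) ^ 2 := by rw [hax, ad_sq]; norm_num
  have e1 : ((ad (ax * ax) (Y * Y + 2199023255552) : ℕ) : ℝ) ^ 2 =
      (((X : ℝ) - 16777216) ^ 2 - ((Y : ℝ) ^ 2 + 2199023255552)) ^ 2 := by
    rw [ad_sq]
    push_cast
    rw [← e0]; ring
  push_cast
  have e2 : ((ad (ax * ax) (Y * Y + 2199023255552) : ℕ) : ℝ) *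
      ((ad (ax * ax) (Y * Y + 2199023255552) : ℕ) : ℝ) +
      4 * (((ax : ℝ) * Y) * ((ax : ℝ) * Y)) =
      ((ad (ax * ax) (Y * Y + 2199023255552) : ℕ) : ℝ) ^ 2 + 4 * ((ax : ℝ) ^ 2 * (Y : ℝ) ^ 2) := by ring
  rw [e2, e1, e0]
  simp only [xpt, Complex.sub_re, Complex.sub_im, pow_two, Complex.mul_re, Complex.mul_im,
    Complex.re_ofNat, Complex.im_ofNat]
  ring

/-- the image of the centre -/
theorem w_center (X Y m0 : ℕ) (hm : 1048576 ≤ m0)
    (hq : m0 * m0 ≤ ad X 16777216 * ad X 16777216 + Y * Y) (hX : 8388608 ≤ X) :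
    ‖wx (xpt X Y) - cpt (wu X (2199023255552 * ad X 16777216 / (ad X 16777216 * ad X 16777216 + Y * Y)))
      (Y + 16777216 - 2199023255552 * Y / (ad X 16777216 * ad X 16777216 + Y * Y))‖ * 1048576 ≤ 2 := by
  set ax := ad X 16777216 with hax
  set q := ax * ax + Y * Y with hqd
  have hq0 : 0 < q := by nlinarith
  have hqR : (0 : ℝ) < q := by exact_mod_cast hq0
  have hqR1 : (1048576 : ℝ) ^ 2 ≤ q := by
    have : 1048576 * 1048576 ≤ q := le_trans (Nat.mul_le_mul hm hm) hq
    exact_mod_cast (by linarith : 1048576 ^ 2 ≤ q)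
  have hqe : (q : ℝ) = ((X : ℝ) - 16777216) ^ 2 + (Y : ℝ) ^ 2 := by
    rw [hqd]; push_cast
    have : (ax : ℝ) * ax = ((X : ℝ) - 16777216) ^ 2 := by
      rw [← pow_two, hax, ad_sq]; norm_num
    rw [this]; ring
  set t := 2199023255552 * ax / q with ht
  set v := 2199023255552 * Y / q with hv
  -- floor estimates
  have ft1 : (t : ℝ) ≤ 2199023255552 * ax / q := by
    rw [le_div_iff₀ hqR]
    have := Nat.div_mul_le_self (2199023255552 * ax) q
    exact_mod_cast this
  have ft2 : 2199023255552 * (ax : ℝ) / q < t + 1 := by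
    rw [div_lt_iff₀ hqR]
    have := Nat.lt_mul_div_succ (2199023255552 * ax) hq0
    rw [mul_comm q] at this
    exact_mod_cast this
  have fv1 : (v : ℝ) ≤ 2199023255552 * Y / q := by
    rw [le_div_iff₀ hqR]
    have := Nat.div_mul_le_self (2199023255552 * Y) q
    exact_mod_cast this
  have fv2 : 2199023255552 * (Y : ℝ) / q < v + 1 := by
    rw [div_lt_iff₀ hqR]
    have := Nat.lt_mul_div_succ (2199023255552 * Y) hq0
    rw [mul_comm q] at this
    exact_mod_cast this
  -- the exact value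
  have hns : Complex.normSq (xpt X Y) = q / 1048576 ^ 2 := by
    rw [Complex.normSq_apply, hqe]
    simp only [xpt]
    ring
  have hax : (ax : ℝ) = |(X : ℝ) - 16777216| := by rw [hax, ad_cast]; norm_num
  have hax0 : (0 : ℝ) ≤ ax := Nat.cast_nonneg _
  have haq : (ax : ℝ) * 1048576 ≤ q := by
    have h2 : (ax : ℝ) ^ 2 ≤ q := by
      rw [hqd]; push_cast
      nlinarith [(Nat.cast_nonneg Y : (0:ℝ) ≤ Y)]
    nlinarith
  have hYq : (Y : ℝ) * 1048576 ≤ q := by
    have h2 : (Y : ℝ) ^ 2 ≤ q := by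
      rw [hqd]; push_cast
      nlinarith
    nlinarith [(Nat.cast_nonneg Y : (0:ℝ) ≤ Y)]
  have ht2 : (t : ℝ) ≤ 2097152 := by
    refine ft1.trans ?_
    rw [div_le_iff₀ hqR]
    linarith
  have hv2 : (v : ℝ) ≤ 2097152 := by
    refine fv1.trans ?_
    rw [div_le_iff₀ hqR]
    linarith
  have ht2' : t ≤ 2097152 := by exact_mod_cast ht2
  have hv2' : v ≤ 2097152 := by exact_mod_cast hv2
  have hU : |((X : ℝ) - 16777216) + 2199023255552 * ((X : ℝ) - 16777216) / q -
      (((wu X t : ℕ) : ℝ) - 16777216)| ≤ 1 := by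
    by_cases hO : 16777216 ≤ X
    · have e : wu X t = X + t := by
        unfold wu
        rw [Nat.ble_eq_true_of_le hO]
        rfl
      have hO' : (16777216 : ℝ) ≤ X := by exact_mod_cast hO
      rw [abs_of_nonneg (by linarith)] at hax
      rw [e, abs_le, ← hax]
      push_cast
      constructor <;> linarith
    · have e : wu X t = X - t := by
        unfold wu
        have : Nat.ble 16777216 X = false := by
          rw [Bool.eq_false_iff]
          intro h
          exact hO (Nat.le_of_ble_eq_true h)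
        rw [this]
        rfl
      have hO' : (X : ℝ) ≤ 16777216 := by
        have : X ≤ 16777216 := by omega
        exact_mod_cast this
      rw [abs_of_nonpos (by linarith)] at hax
      rw [e, abs_le, Nat.cast_sub (by omega)]
      have hax' : (X : ℝ) - 16777216 = -ax := by linarith
      rw [hax']
      have e2 : 2199023255552 * (-(ax : ℝ)) / q = -(2199023255552 * (ax : ℝ) / q) := by ring
      rw [e2]
      constructor <;> linarith
  have hV : |(Y : ℝ) - 2199023255552 * Y / q -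
      (((Y + 16777216 - v : ℕ) : ℝ) - 16777216)| ≤ 1 := by
    rw [Nat.cast_sub (by omega), abs_le]
    push_cast
    constructor <;> linarith
  have hfin := norm_le_two_of _ _ hU hV
  have e : (wx (xpt X Y) - cpt (wu X t) (Y + 16777216 - v)) * 1048576 =
      ⟨((X : ℝ) - 16777216) + 2199023255552 * ((X : ℝ) - 16777216) / q -
      (((wu X t : ℕ) : ℝ) - 16777216), (Y : ℝ) - 2199023255552 * Y / q -
      (((Y + 16777216 - v : ℕ) : ℝ) - 16777216)⟩ := by
    apply Complex.ext
    · simp only [wx, cpt, Complex.mul_re, Complex.sub_re, Complex.add_re, Complex.div_re, hns,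
        Complex.re_ofNat, Complex.im_ofNat]
      simp only [xpt]
      field_simp
      ring
    · simp only [wx, cpt, Complex.mul_im, Complex.sub_im, Complex.add_im, Complex.div_im, hns,
        Complex.re_ofNat, Complex.im_ofNat]
      simp only [xpt]
      field_simp
      ring
  rw [← e, norm_mul] at hfin
  simpa using hfin

end Pool.Agent.Y795.PiH
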