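import Pool.Agent.Y795.PiH.Snd2

/-!
# Soundness of the checker, part 3: cells, edges, paths
-/

set_option autoImplicit false

open Polynomial

namespace Pool.Agent.Y795.PiH

/-- what is proved at a point of the `x`-plane -/
def Good (D : ℕ) (at_ : AL) (rw_ : RL) (x : ℂ) : Prop :=
  1 ≤ ‖x‖ ∧ (wx x) ^ 2 ≠ 8 ∧ RowsHold D at_ (wx x) rw_

theorem cell_sound (D : ℕ) (at_ : AL) (hat : at_.Wf) (rw_ : RL) (r ρ m0 M0 h0 X Y : ℕ)
    (hM : M0 ≤ 8388608) (hm : r + 1048576 ≤ m0)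
    (hr : r * (h0 * 1048576 + M0 * r) ≤ (ρ - 2) * ((m0 - r) * m0))
    (h : cellOk D at_ rw_ ρ m0 M0 h0 X Y = true) (x : ℂ) (hx : ‖x - xpt X Y‖ * 1048576 ≤ r)
    (hρ : 2 ≤ ρ) : Good D at_ rw_ x := by
  obtain ⟨h1, h'⟩ := bb_true h
  obtain ⟨h2, h'⟩ := bb_true h'
  obtain ⟨h3, h4⟩ := bb_true h'
  have h1' : m0 * m0 ≤ ad X 16777216 * ad X 16777216 + Y * Y := Nat.le_of_ble_eq_true h1
  have h2' : ad X 16777216 * ad X 16777216 + Y * Y ≤ M0 * M0 := Nat.le_of_ble_eq_true h2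
  have h3' : ad (ad X 16777216 * ad X 16777216) (Y * Y + 2199023255552) *
      ad (ad X 16777216 * ad X 16777216) (Y * Y + 2199023255552) +
      4 * ((ad X 16777216 * Y) * (ad X 16777216 * Y)) ≤ (h0 * 1048576) * (h0 * 1048576) :=
    Nat.le_of_ble_eq_true h3
  set z := xpt X Y with hz
  have n1 := norm_xpt X Y
  rw [← hz] at n1
  have hm1 : (m0 : ℝ) ≤ ‖z‖ * 1048576 := by
    have : (m0 : ℝ) ^ 2 ≤ (‖z‖ * 1048576) ^ 2 := by
      rw [n1, pow_two]; exact_mod_cast h1'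
    exact (pow_le_pow_iff_left₀ (Nat.cast_nonneg _) (by positivity) two_ne_zero).1 this
  have hM1 : ‖z‖ * 1048576 ≤ M0 := by
    have : (‖z‖ * 1048576) ^ 2 ≤ (M0 : ℝ) ^ 2 := by
      rw [n1, pow_two]; exact_mod_cast h2'
    exact (pow_le_pow_iff_left₀ (by positivity) (Nat.cast_nonneg _) two_ne_zero).1 this
  have hh : ‖z ^ 2 - 2‖ * 1048576 ≤ h0 := by
    have n2 := norm_xpt2 X Y
    rw [← hz] at n2
    have : (‖z ^ 2 - 2‖ * 1048576 ^ 2) ^ 2 ≤ ((h0 : ℝ) * 1048576) ^ 2 := by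
      rw [n2, pow_two]; exact_mod_cast h3'
    have := (pow_le_pow_iff_left₀ (by positivity) (by positivity) two_ne_zero).1 this
    nlinarith
  have hr0 : (0 : ℝ) ≤ r := Nat.cast_nonneg _
  have hmR : (r : ℝ) + 1048576 ≤ m0 := by exact_mod_cast hm
  -- the norm of `x`
  have hxn : (m0 : ℝ) - r ≤ ‖x‖ * 1048576 := by
    have : ‖z‖ ≤ ‖x‖ + ‖x - z‖ := by
      have e : z = x - (x - z) := by ring
      conv_lhs => rw [e]
      exact norm_sub_le _ _
    nlinarith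
  have hx1 : 1 ≤ ‖x‖ := by nlinarith
  have hx0 : x ≠ 0 := by
    intro h0; rw [h0, norm_zero] at hx1; linarith
  have hz0 : z ≠ 0 := by
    intro h0; rw [h0, norm_zero] at hm1; linarith
  -- the image
  have hw1 : ‖wx x - wx z‖ * 1048576 ≤ (ρ : ℝ) - 2 := by
    have e : wx x - wx z = (x - z) * ((z ^ 2 - 2) + (x - z) * z) / (x * z) := by
      unfold wx; field_simp; ring
    rw [e, norm_div, norm_mul, norm_mul]
    have hden : ((m0 : ℝ) - r) * m0 ≤ (‖x‖ * 1048576) * (‖z‖ * 1048576) :=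
      mul_le_mul hxn hm1 (Nat.cast_nonneg _) (by positivity)
    have hden0 : (0 : ℝ) < ((m0 : ℝ) - r) * m0 := by
      apply mul_pos <;> linarith
    have hnum : (‖x - z‖ * 1048576) * (‖(z ^ 2 - 2) + (x - z) * z‖ * 1048576 ^ 2) ≤
        r * (h0 * 1048576 + M0 * r) := by
      apply mul_le_mul hx _ (by positivity) hr0
      have : ‖(z ^ 2 - 2) + (x - z) * z‖ ≤ ‖z ^ 2 - 2‖ + ‖x - z‖ * ‖z‖ := by
        refine (norm_add_le _ _).trans ?_
        rw [norm_mul]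
      have h5 : (‖x - z‖ * 1048576) * (‖z‖ * 1048576) ≤ r * M0 :=
        mul_le_mul hx hM1 (by positivity) hr0
      nlinarith
    have hrR : (r : ℝ) * (h0 * 1048576 + M0 * r) ≤ ((ρ : ℝ) - 2) * ((m0 - r) * m0) := by
      have e1 : ((ρ - 2 : ℕ) : ℝ) = (ρ : ℝ) - 2 := by rw [Nat.cast_sub hρ]; norm_num
      have e2 : ((m0 - r : ℕ) : ℝ) = (m0 : ℝ) - r := Nat.cast_sub (by omega)
      rw [← e1, ← e2]
      exact_mod_cast hr
    have hpos : 0 < ‖x‖ * ‖z‖ := mul_pos (norm_pos_iff.2 hx0) (norm_pos_iff.2 hz0)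
    have hρ' : (0 : ℝ) ≤ (ρ : ℝ) - 2 := by
      have : ((2 : ℕ) : ℝ) ≤ ρ := by exact_mod_cast hρ
      push_cast at this
      linarith
    rw [div_mul_eq_mul_div, div_le_iff₀ hpos]
    have h6 : (‖x - z‖ * 1048576) * (‖(z ^ 2 - 2) + (x - z) * z‖ * 1048576 ^ 2) ≤
        ((ρ : ℝ) - 2) * ((‖x‖ * 1048576) * (‖z‖ * 1048576)) :=
      hnum.trans (hrR.trans (mul_le_mul_of_nonneg_left hden hρ'))
    nlinarith
  have hX : 8388608 ≤ X := by
    by_contra hlt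
    push Not at hlt
    have e : ad X 16777216 = 16777216 - X := by
      change (X - 16777216) + (16777216 - X) = _
      omega
    rw [e] at h2'
    have h7 : 8388608 < 16777216 - X := by omega
    nlinarith [Nat.mul_le_mul hM hM, Nat.mul_lt_mul'' h7 h7, Nat.zero_le (Y * Y)]
  have hc := w_center X Y m0 (by omega) h1' hX
  rw [← hz] at hc
  set U := wu X (2199023255552 * ad X 16777216 / (ad X 16777216 * ad X 16777216 + Y * Y))
  set V := Y + 16777216 - 2199023255552 * Y / (ad X 16777216 * ad X 16777216 + Y * Y)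
  have hw2 : ‖wx x - cpt U V‖ * 1048576 ≤ ρ := by
    have e : wx x - cpt U V = (wx x - wx z) + (wx z - cpt U V) := by ring
    rw [e]
    have := norm_add_le (wx x - wx z) (wx z - cpt U V)
    nlinarith
  obtain ⟨g1, g2⟩ := disc_sound D at_ hat U V ρ (wx x) hw2 rw_ h4
  exact ⟨hx1, g1, g2⟩

theorem cells_sound (D : ℕ) (at_ : AL) (rw_ : RL) (X0 Y0 X1 Y1 n ρ m0 M0 h0 : ℕ) :
    ∀ k : ℕ, cellsOk D at_ rw_ X0 Y0 X1 Y1 n ρ m0 M0 h0 k = true → ∀ m < k,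
      cellOk D at_ rw_ ρ m0 M0 h0 ((X0 * (2 * n - (2 * m + 1)) + X1 * (2 * m + 1)) / (2 * n))
        ((Y0 * (2 * n - (2 * m + 1)) + Y1 * (2 * m + 1)) / (2 * n)) = true := by
  intro k
  induction k with
  | zero => intro _ m hm; omega
  | succ k ih =>
    intro h m hm
    obtain ⟨h1, h2⟩ := bb_true h
    rcases Nat.lt_succ_iff_lt_or_eq.1 hm with hlt | heq
    · exact ih h2 m hlt
    · subst heq
      exact h1

/-- the approximate centre -/
theorem center_approx (X0 X1 n m : ℕ) (hn : 1 ≤ n) (hm : m < n) :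
    |((X0 : ℝ) * (1 - (2 * m + 1) / (2 * n)) + X1 * ((2 * m + 1) / (2 * n))) -
      (((X0 * (2 * n - (2 * m + 1)) + X1 * (2 * m + 1)) / (2 * n) : ℕ) : ℝ)| ≤ 1 := by
  set a := X0 * (2 * n - (2 * m + 1)) + X1 * (2 * m + 1) with ha
  have hn0 : 0 < 2 * n := by omega
  have hnR : (0 : ℝ) < 2 * n := by exact_mod_cast hn0
  have e : (X0 : ℝ) * (1 - (2 * m + 1) / (2 * n)) + X1 * ((2 * m + 1) / (2 * n)) = a / (2 * n) := by
    rw [ha]
    push_cast [Nat.cast_sub (by omega : 2 * m + 1 ≤ 2 * n)]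
    field_simp
  rw [e]
  have h1 : ((a / (2 * n) : ℕ) : ℝ) ≤ a / (2 * n) := by
    rw [le_div_iff₀ hnR]
    have := Nat.div_mul_le_self a (2 * n)
    exact_mod_cast this
  have h2 : (a : ℝ) / (2 * n) < ((a / (2 * n) : ℕ) : ℝ) + 1 := by
    rw [div_lt_iff₀ hnR]
    have := Nat.lt_mul_div_succ a hn0
    rw [mul_comm (2 * n)] at this
    exact_mod_cast this
  rw [abs_le]
  constructor <;> linarith

theorem edge_sound (D : ℕ) (at_ : AL) (hat : at_.Wf) (rw_ : RL) (X0 Y0 X1 Y1 n r ρ m0 M0 h0 : ℕ)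
    (h : edgeOk D at_ rw_ X0 Y0 X1 Y1 n r ρ m0 M0 h0 = true) (x : ℂ)
    (hx : x ∈ segment ℝ (xpt X0 Y0) (xpt X1 Y1)) : Good D at_ rw_ x := by
  obtain ⟨h1, h'⟩ := bb_true h
  obtain ⟨h2, h'⟩ := bb_true h'
  obtain ⟨h3, h'⟩ := bb_true h'
  obtain ⟨h4, h'⟩ := bb_true h'
  obtain ⟨h5, h'⟩ := bb_true h'
  obtain ⟨h6, h7⟩ := bb_true h'
  have hn : 1 ≤ n := Nat.le_of_ble_eq_true h1
  have hr : 3 ≤ r := Nat.le_of_ble_eq_true h2
  have hM : M0 ≤ 8388608 := Nat.le_of_ble_eq_true h3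
  have hm0 : r + 1048576 ≤ m0 := Nat.le_of_ble_eq_true h4
  have h5' : ad X0 X1 * ad X0 X1 + ad Y0 Y1 * ad Y0 Y1 ≤ (2 * n * (r - 2)) * (2 * n * (r - 2)) :=
    Nat.le_of_ble_eq_true h5
  have h6' : r * (h0 * 1048576 + M0 * r) ≤ (ρ - 2) * ((m0 - r) * m0) := Nat.le_of_ble_eq_true h6
  have hρ : 2 ≤ ρ := by
    by_contra hlt
    push Not at hlt
    have e : ρ - 2 = 0 := by omega
    rw [e, zero_mul] at h6'
    have h8 : r * (h0 * 1048576 + M0 * r) = 0 := by omega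
    have h9 : M0 * r = 0 := by
      rcases Nat.mul_eq_zero.1 h8 with h | h
      · omega
      · omega
    have hM00 : M0 = 0 := by
      rcases Nat.mul_eq_zero.1 h9 with h | h
      · exact h
      · omega
    obtain ⟨g1, g'⟩ := bb_true (cells_sound D at_ rw_ X0 Y0 X1 Y1 n ρ m0 M0 h0 n h7 0 (by omega))
    obtain ⟨g2, -⟩ := bb_true g'
    have g3 := (Nat.le_of_ble_eq_true g1).trans (Nat.le_of_ble_eq_true g2)
    rw [hM00] at g3
    have : 0 < Nat.mul m0 m0 := Nat.mul_pos (by omega) (by omega)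
    exact absurd (lt_of_lt_of_le this g3) (by simp)
  obtain ⟨s, t, hs, ht, hst, rfl⟩ := hx
  have hnR : (1 : ℝ) ≤ n := by exact_mod_cast hn
  -- the cell
  obtain ⟨m, hm, htm⟩ : ∃ m : ℕ, m < n ∧ |t - (2 * m + 1) / (2 * n)| ≤ 1 / (2 * n) := by
    have ht1 : t ≤ 1 := by linarith
    rcases ht1.lt_or_eq with hlt | heq
    · refine ⟨⌊t * n⌋₊, ?_, ?_⟩
      · rw [Nat.floor_lt (by positivity)]
        nlinarith
      · have g1 := Nat.floor_le (by positivity : 0 ≤ t * n)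
        have g2 := Nat.lt_floor_add_one (t * n)
        have e : t - (2 * (⌊t * n⌋₊ : ℝ) + 1) / (2 * n) = (2 * (t * n - ⌊t * n⌋₊) - 1) / (2 * n) := by
          field_simp; ring
        rw [e, abs_div, abs_of_pos (by positivity : (0 : ℝ) < 2 * n)]
        gcongr
        rw [abs_le]
        constructor <;> linarith
    · refine ⟨n - 1, by omega, ?_⟩
      rw [heq, Nat.cast_sub hn]
      have e : (1 : ℝ) - (2 * ((n : ℝ) - ((1 : ℕ) : ℝ)) + 1) / (2 * n) = 1 / (2 * n) := by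
        push_cast; field_simp; ring
      rw [e, abs_of_pos (by positivity)]
  have hcell := cells_sound D at_ rw_ X0 Y0 X1 Y1 n ρ m0 M0 h0 n h7 m hm
  refine cell_sound D at_ hat rw_ r ρ m0 M0 h0 _ _ hM hm0 h6' hcell _ ?_ hρ
  -- distance to the centre
  set τ : ℝ := (2 * m + 1) / (2 * n) with hτ
  set A := (X0 * (2 * n - (2 * m + 1)) + X1 * (2 * m + 1)) / (2 * n) with hA
  set B := (Y0 * (2 * n - (2 * m + 1)) + Y1 * (2 * m + 1)) / (2 * n) with hB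
  have c1 := center_approx X0 X1 n m hn hm
  have c2 := center_approx Y0 Y1 n m hn hm
  rw [← hτ, ← hA] at c1
  rw [← hτ, ← hB] at c2
  have c3 := norm_le_two_of _ _ c1 c2
  have hs' : s = 1 - t := by linarith
  have e : (s • xpt X0 Y0 + t • xpt X1 Y1 - xpt A B) * 1048576 =
      ((t - τ : ℝ) : ℂ) * (((xpt X1 Y1) - (xpt X0 Y0)) * 1048576) +
      ⟨(X0 : ℝ) * (1 - τ) + X1 * τ - A, (Y0 : ℝ) * (1 - τ) + Y1 * τ - B⟩ := by
    rw [hs']
    apply Complex.ext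
    · simp [xpt]
      ring
    · simp [xpt]
      ring
  have e2 : ‖s • xpt X0 Y0 + t • xpt X1 Y1 - xpt A B‖ * 1048576 =
      ‖(s • xpt X0 Y0 + t • xpt X1 Y1 - xpt A B) * 1048576‖ := by
    rw [norm_mul]; simp
  rw [e2, e]
  refine (norm_add_le _ _).trans ?_
  rw [norm_mul, Complex.norm_real, Real.norm_eq_abs]
  have hlen : ‖((xpt X1 Y1) - (xpt X0 Y0)) * 1048576‖ ≤ 2 * n * ((r : ℝ) - 2) := by
    have e3 : ‖((xpt X1 Y1) - (xpt X0 Y0)) * 1048576‖ ^ 2 =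
        ((ad X0 X1 * ad X0 X1 + ad Y0 Y1 * ad Y0 Y1 : ℕ) : ℝ) := by
      rw [norm_mul, mul_pow, ← Complex.normSq_eq_norm_sq, Complex.normSq_apply]
      push_cast
      rw [← pow_two, ← pow_two, ← pow_two, ← pow_two, ad_sq, ad_sq]
      simp [xpt]
      ring
    have e4 : ((2 * n * (r - 2) : ℕ) : ℝ) = 2 * n * ((r : ℝ) - 2) := by
      push_cast [Nat.cast_sub (by omega : 2 ≤ r)]; ring
    rw [← e4]
    refine (pow_le_pow_iff_left₀ (by positivity) (Nat.cast_nonneg _) two_ne_zero).1 ?_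
    rw [e3, pow_two]
    exact_mod_cast h5'
  have hlen0 : 0 ≤ ‖((xpt X1 Y1) - (xpt X0 Y0)) * 1048576‖ := norm_nonneg _
  calc |t - τ| * ‖((xpt X1 Y1) - (xpt X0 Y0)) * 1048576‖ +
        ‖(⟨(X0 : ℝ) * (1 - τ) + X1 * τ - A, (Y0 : ℝ) * (1 - τ) + Y1 * τ - B⟩ : ℂ)‖
      ≤ 1 / (2 * n) * (2 * n * ((r : ℝ) - 2)) + 2 := by
        gcongr
    _ = r := by field_simp; ring

/-- the vertices of a path -/
noncomputable def pts : EL → List ℂ
  | .nil => []
  | .cons X Y _ _ _ _ _ _ l => xpt X Y :: pts l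

theorem path_sound (D : ℕ) (at_ : AL) (hat : at_.Wf) (rw_ : RL) : ∀ (l : EL) (X0 Y0 : ℕ),
    pathOk D at_ rw_ l X0 Y0 = true → ∀ x, OnPath (xpt X0 Y0 :: pts l) x → Good D at_ rw_ x
  | .nil, X0, Y0, _, x, hx => by
    simp only [pts, OnPath] at hx
  | .cons X Y n r ρ m0 M0 h0 l, X0, Y0, h, x, hx => by
    obtain ⟨h1, h2⟩ := bb_true h
    simp only [pts, OnPath] at hx
    rcases hx with hx | hx
    · exact edge_sound D at_ hat rw_ X0 Y0 X Y n r ρ m0 M0 h0 h1 x hx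
    · exact path_sound D at_ hat rw_ l X Y h2 x hx

end Pool.Agent.Y795.PiH
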