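import Pool.Agent.Y795.PiH.Snd3

/-!
# Soundness of the checker, part 4: the certificate
-/

set_option autoImplicit false

open Polynomial

namespace Pool.Agent.Y795.PiH

/-- the exponents of a row -/
def Rget : RL → ℕ → NL
  | .nil, _ => .nil
  | .cons A _ _, 0 => A
  | .cons _ _ l, j + 1 => Rget l j

/-- the bound of a row -/
def Eget : RL → ℕ → ℕ
  | .nil, _ => 0
  | .cons _ e _, 0 => e
  | .cons _ _ l, j + 1 => Eget l j

/-- the number of rows -/
def Rlen : RL → ℕ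
  | .nil => 0
  | .cons _ _ l => Rlen l + 1

theorem rows_get (D : ℕ) (at_ : AL) (w : ℂ) : ∀ (R : RL), RowsHold D at_ w R → ∀ j < Rlen R,
    ‖aeval w (polyOf at_ (Rget R j))‖ ^ 2 * W1 w ^ D *
      1048576 ^ (2 * degOf at_ (Rget R j) + 2 * D) ≤ 2 ^ Eget R j
  | .nil, _, j, hj => by simp [Rlen] at hj
  | .cons A e l, h, 0, _ => h.1
  | .cons A e l, h, j + 1, hj => rows_get D at_ w l h.2 j (by simp only [Rlen] at hj; omega)

theorem rows_get_shift (D S : ℕ) (at_ : AL) (w : ℂ) : ∀ (R : RL), RowsHold D at_ w (shiftR S R) →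
    ∀ j < Rlen R,
    ‖aeval w (polyOf at_ (Rget R j))‖ ^ 2 * W1 w ^ D *
      1048576 ^ (2 * degOf at_ (Rget R j) + 2 * D) ≤ 2 ^ (Eget R j + S)
  | .nil, _, j, hj => by simp [Rlen] at hj
  | .cons A e l, h, 0, _ => h.1
  | .cons A e l, h, j + 1, hj =>
    rows_get_shift D S at_ w l h.2 j (by simp only [Rlen] at hj; omega)

/-- concatenation of edge lists -/
def EL.app : EL → EL → EL
  | .nil, b => b
  | .cons X Y n r ρ m0 M0 h0 l, b => .cons X Y n r ρ m0 M0 h0 (l.app b)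

/-- end point -/
def ept : EL → ℕ → ℕ → ℕ × ℕ
  | .nil, X0, Y0 => (X0, Y0)
  | .cons X Y _ _ _ _ _ _ l, _, _ => ept l X Y

/-- all points of the path are good -/
def GoodP (D : ℕ) (at_ : AL) (rw_ : RL) (l : EL) (X0 Y0 : ℕ) : Prop :=
  ∀ x, OnPath (xpt X0 Y0 :: pts l) x → Good D at_ rw_ x

theorem onPath_app (b : EL) (x : ℂ) : ∀ (a : EL) (X0 Y0 : ℕ),
    OnPath (xpt X0 Y0 :: pts (a.app b)) x →
    OnPath (xpt X0 Y0 :: pts a) x ∨
      OnPath (xpt (ept a X0 Y0).1 (ept a X0 Y0).2 :: pts b) x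
  | .nil, X0, Y0, h => Or.inr h
  | .cons X Y n r ρ m0 M0 h0 l, X0, Y0, h => by
    simp only [EL.app, pts, OnPath] at h
    rcases h with h | h
    · refine Or.inl ?_
      simp only [pts, OnPath]
      exact Or.inl h
    · rcases onPath_app b x l X Y h with h | h
      · refine Or.inl ?_
        simp only [pts, OnPath]
        exact Or.inr h
      · exact Or.inr h

theorem goodP_app {D : ℕ} {at_ : AL} {rw_ : RL} {a b : EL} {X0 Y0 X1 Y1 : ℕ}
    (ha : GoodP D at_ rw_ a X0 Y0) (he : ept a X0 Y0 = (X1, Y1)) (hb : GoodP D at_ rw_ b X1 Y1) :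
    GoodP D at_ rw_ (a.app b) X0 Y0 := by
  intro x hx
  rcases onPath_app b x a X0 Y0 hx with h | h
  · exact ha x h
  · rw [he] at h
    exact hb x h

theorem ept_app (b : EL) : ∀ (a : EL) (X0 Y0 X1 Y1 : ℕ), ept a X0 Y0 = (X1, Y1) →
    ept (a.app b) X0 Y0 = ept b X1 Y1
  | .nil, X0, Y0, X1, Y1, h => by
    simp only [ept, Prod.mk.injEq] at h
    rw [h.1, h.2]; rfl
  | .cons X Y n r ρ m0 M0 h0 l, X0, Y0, X1, Y1, h => ept_app b l X Y X1 Y1 h

theorem im_nonneg (x : ℂ) : ∀ (l : EL) (X0 Y0 : ℕ), OnPath (xpt X0 Y0 :: pts l) x → 0 ≤ x.im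
  | .nil, X0, Y0, h => by simp only [pts, OnPath] at h
  | .cons X Y n r ρ m0 M0 h0 l, X0, Y0, h => by
    simp only [pts, OnPath] at h
    rcases h with h | h
    · obtain ⟨s, t, hs, ht, hst, rfl⟩ := h
      simp only [Complex.add_im, Complex.real_smul, Complex.mul_im, Complex.ofReal_re,
        Complex.ofReal_im, zero_mul, add_zero, xpt]
      positivity
    · exact im_nonneg x l X Y h

theorem getLast_pts : ∀ (l : EL) (X0 Y0 : ℕ), (xpt X0 Y0 :: pts l).getLast? =
    some (xpt (ept l X0 Y0).1 (ept l X0 Y0).2)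
  | .nil, X0, Y0 => by simp [pts, ept]
  | .cons X Y n r ρ m0 M0 h0 l, X0, Y0 => by
    simp only [pts, ept]
    rw [List.getLast?_cons_cons]
    exact getLast_pts l X Y

theorem adm_of_good {D : ℕ} {at_ : AL} {rw_ : RL} {x : ℂ} (h : Good D at_ rw_ x) (hi : 0 ≤ x.im) :
    Adm x := by
  refine ⟨hi, h.1, fun h2 => h.2.1 ?_⟩
  have hx0 : x ≠ 0 := by
    intro h0
    have := h.1
    rw [h0, norm_zero] at this
    linarith
  unfold wx
  have : (x + 2 / x) ^ 2 = x ^ 2 + 4 + 4 / x ^ 2 := by field_simp; ring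
  rw [this, h2]; norm_num

/-- the certificate -/
noncomputable def mkCert (D S : ℕ) (at_ : AL) (R : RL) (l1 l2 : List ℂ) : Cert where
  D := D
  J := Rlen R - 1
  S := S
  d := fun j => degOf at_ (Rget R j)
  T := fun j => 40 * (degOf at_ (Rget R j) + D) - Eget R j
  B := fun j => polyOf at_ (Rget R j)
  l1 := l1
  l2 := l2

/-- the checks of the rows -/
def rowData (D : ℕ) (at_ : AL) (R : RL) : Bool :=
  (List.range (Rlen R)).all (fun j => Nat.ble (Eget R j) (40 * (degOf at_ (Rget R j) + D))) &&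
  (List.range (Rlen R - 1)).all
    (fun j => Nat.blt (degOf at_ (Rget R j)) (degOf at_ (Rget R (j + 1)))) &&
  Nat.beq (degOf at_ (Rget R 0)) 0 && Nat.beq (degOf at_ (Rget R (Rlen R - 1))) D &&
  Nat.blt 1 (Rlen R)

theorem pow_conv (a b : ℕ) (x : ℝ) (e : ℕ) (hx : x * 1048576 ^ (2 * a + 2 * b) ≤ 2 ^ e) (S : ℕ)
    (T : ℕ) (hT : e + T = 40 * (a + b) + S) : x * 2 ^ T ≤ 2 ^ S := by
  have h1 : (1048576 : ℝ) ^ (2 * a + 2 * b) = 2 ^ (40 * (a + b)) := by
    rw [show (1048576 : ℝ) = 2 ^ 20 by norm_num, ← pow_mul]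
    congr 1; ring
  rw [h1] at hx
  have h2 : x * 2 ^ (40 * (a + b)) * 2 ^ T ≤ 2 ^ e * 2 ^ T :=
    mul_le_mul_of_nonneg_right hx (by positivity)
  rw [← pow_add, hT, pow_add] at h2
  have h3 : (0 : ℝ) < 2 ^ (40 * (a + b)) := by positivity
  have h4 : (x * 2 ^ T) * 2 ^ (40 * (a + b)) ≤ 2 ^ S * 2 ^ (40 * (a + b)) := by
    calc (x * 2 ^ T) * 2 ^ (40 * (a + b)) = x * 2 ^ (40 * (a + b)) * 2 ^ T := by ring
      _ ≤ 2 ^ (40 * (a + b)) * 2 ^ S := h2
      _ = _ := by ring
  exact le_of_mul_le_mul_right h4 h3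

theorem valid_of (D S : ℕ) (at_ : AL) (hat : at_.Wf) (R : RL) (hR : rowData D at_ R = true)
    (a b : EL) (Xa Ya Xb Yb : ℕ) (Yb' Xb' : ℕ) (ha : GoodP D at_ R a Xa Ya)
    (hb : GoodP D at_ (shiftR S R) b Xb Yb) (hXa : 16777216 < Xa) (hYa : Ya = 0)
    (hXb : 16777216 < Xb) (hYb : Yb = 0) (ea : ept a Xa Ya = (17825792, 1048576))
    (eb : ept b Xb Yb = (Xb', Yb')) (hXb' : Xb' < 16777216) (hYb' : Yb' = 0) :
    (mkCert D S at_ R (xpt Xa Ya :: pts a) (xpt Xb Yb :: pts b)).Valid := by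
  unfold rowData at hR
  simp only [Bool.and_eq_true, List.all_eq_true, List.mem_range] at hR
  obtain ⟨⟨⟨⟨r1, r2⟩, r3⟩, r4⟩, r5⟩ := hR
  have r5' : 1 < Rlen R := by
    have : Nat.ble 2 (Rlen R) = true := r5
    exact Nat.le_of_ble_eq_true this
  have hpos : ∀ X : ℕ, 16777216 < X → (0 : ℝ) < ((X : ℝ) - 16777216) / 1048576 := by
    intro X hX
    have : (16777216 : ℝ) < X := by exact_mod_cast hX
    apply div_pos <;> linarith
  have hreal : ∀ X : ℕ, xpt X 0 = ((((X : ℝ) - 16777216) / 1048576 : ℝ) : ℂ) := by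
    intro X
    apply Complex.ext <;> simp [xpt]
  have hE : ∀ j < Rlen R, Eget R j ≤ 40 * (degOf at_ (Rget R j) + D) := fun j hj =>
    Nat.le_of_ble_eq_true (r1 j hj)
  have hlen : ∀ (l : EL) (X Y X' Y' : ℕ), ept l X Y = (X', Y') → (X, Y) ≠ (X', Y') →
      2 ≤ (xpt X Y :: pts l).length := by
    intro l X Y X' Y' h hne
    cases l with
    | nil => exact absurd h hne
    | cons _ _ _ _ _ _ _ _ l => simp [pts]
  exact {
    J_pos := by change 0 < Rlen R - 1; omega
    d_zero := Nat.eq_of_beq_eq_true r3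
    d_last := Nat.eq_of_beq_eq_true r4
    d_lt := by
      intro j hj
      have : Nat.ble (degOf at_ (Rget R j) + 1) (degOf at_ (Rget R (j + 1))) = true := r2 j hj
      exact Nat.le_of_ble_eq_true this
    monic := fun j _ => monic_polyOf at_ (Rget R j)
    l1_head := ⟨_, hpos Xa hXa, by subst hYa; rw [← hreal]; rfl⟩
    l1_last := by
      change (xpt Xa Ya :: pts a).getLast? = _
      rw [getLast_pts, ea]
      congr 1
      apply Complex.ext <;> simp [xpt]; norm_num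
    l1_len := hlen a Xa Ya _ _ ea (by subst hYa; simp)
    l2_head := ⟨_, hpos Xb hXb, by subst hYb; rw [← hreal]; rfl⟩
    l2_last := by
      refine ⟨((Xb' : ℝ) - 16777216) / 1048576, ?_, ?_⟩
      · have : (Xb' : ℝ) < 16777216 := by exact_mod_cast hXb'
        apply div_neg_of_neg_of_pos <;> linarith
      · change (xpt Xb Yb :: pts b).getLast? = _
        rw [getLast_pts, eb, hYb', hreal]
    l2_len := hlen b Xb Yb _ _ eb (by
      intro h
      rw [Prod.mk.injEq] at h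
      omega)
    l1_bd := by
      intro x hx
      have hg := ha x hx
      refine ⟨adm_of_good hg (im_nonneg x a Xa Ya hx), fun j hj => ?_⟩
      have hj' : j < Rlen R := by
        have : j ≤ Rlen R - 1 := hj
        omega
      have := rows_get D at_ (wx x) R hg.2.2 j hj'
      have h2 := pow_conv _ _ _ _ this 0 (40 * (degOf at_ (Rget R j) + D) - Eget R j)
        (by have := hE j hj'; omega)
      rwa [pow_zero] at h2
    l2_bd := by
      intro x hx
      have hg := hb x hx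
      refine ⟨adm_of_good hg (im_nonneg x b Xb Yb hx), fun j hj => ?_⟩
      have hj' : j < Rlen R := by
        have : j ≤ Rlen R - 1 := hj
        omega
      have := rows_get_shift D S at_ (wx x) R hg.2.2 j hj'
      exact pow_conv _ _ _ _ this S (40 * (degOf at_ (Rget R j) + D) - Eget R j)
        (by have := hE j hj'; omega) }

/-- twice the archimedean exponent in units of `log 2 / D²` -/
def Esum (D : ℕ) (at_ : AL) (R : RL) : ℕ → ℕ
  | 0 => 0
  | j + 1 => Esum D at_ R j + (degOf at_ (Rget R (j + 1)) - degOf at_ (Rget R j)) *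
      ((40 * (degOf at_ (Rget R j) + D) - Eget R j) +
        (40 * (degOf at_ (Rget R (j + 1)) + D) - Eget R (j + 1)))

theorem E_eq (D S : ℕ) (at_ : AL) (R : RL) (l1 l2 : List ℂ)
    (hd : ∀ j < Rlen R - 1, degOf at_ (Rget R j) < degOf at_ (Rget R (j + 1))) :
    (mkCert D S at_ R l1 l2).E = (Esum D at_ R (Rlen R - 1) : ℝ) / 2 * Real.log 2 / (D : ℝ) ^ 2 := by
  have key : ∀ n ≤ Rlen R - 1, ∑ j ∈ Finset.range n,
      (((degOf at_ (Rget R (j + 1)) : ℕ) : ℝ) - (degOf at_ (Rget R j) : ℕ)) *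
      (((40 * (degOf at_ (Rget R j) + D) - Eget R j : ℕ) : ℝ) +
        ((40 * (degOf at_ (Rget R (j + 1)) + D) - Eget R (j + 1) : ℕ) : ℝ)) / 2 =
      (Esum D at_ R n : ℝ) / 2 := by
    intro n
    induction n with
    | zero => intro _; simp [Esum]
    | succ n ih =>
      intro hn
      rw [Finset.sum_range_succ, ih (by omega), Esum]
      have h1 := hd n (by omega)
      rw [Nat.cast_add, Nat.cast_mul, Nat.cast_add, Nat.cast_sub h1.le]
      ring
  unfold Cert.E
  change (∑ j ∈ Finset.range (Rlen R - 1),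
      (((degOf at_ (Rget R (j + 1)) : ℕ) : ℝ) - (degOf at_ (Rget R j) : ℕ)) *
      (((40 * (degOf at_ (Rget R j) + D) - Eget R j : ℕ) : ℝ) +
        ((40 * (degOf at_ (Rget R (j + 1)) + D) - Eget R (j + 1) : ℕ) : ℝ)) / 2) *
      Real.log 2 / (D : ℝ) ^ 2 = _
  rw [key _ le_rfl]

end Pool.Agent.Y795.PiH
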