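import Pool.Agent.Y795.PiH.Base

/-!
# Hankel determinants of linear forms in `1` and `π`: the statements of the tasks
-/

set_option autoImplicit false

open Polynomial Filter

namespace Pool.Agent.Y795.PiH

open Pool.Agent.H326R2.Pi

/-- the image in `ℚ[X]` of an integral polynomial -/
noncomputable def iq (Q : ℤ[X]) : ℚ[X] := Q.map (Int.castRingHom ℚ)

/-! ## Odd primes -/

/-- PH1 (a): denominators in general -/
def S_odd1 : Prop := ∀ (p : ℕ), 1 ≤ p → ∀ Q : ℤ[X], Q.natDegree ≤ 2 * p →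
  (∃ k : ℤ, kf p (iq Q) = k) ∧
  ∀ q : ℕ, q.Prime → q ≠ 2 → padicNorm q (bf p (iq Q)) ≤ (q : ℚ) ^ Nat.log q (4 * p)

/-- PH1 (b): large primes, polynomials divisible by a power of `w²-8` -/
def S_odd2 : Prop := ∀ (p a q : ℕ) (Q : ℤ[X]), 1 ≤ p → a < 2 * p → q.Prime → q ≠ 2 →
  4 * p ≤ q + 2 * a → Q.natDegree + 2 * a + 2 * p < q →
  padicNorm q (bf p (iq ((X ^ 2 - 8) ^ a * Q))) ≤ 1

/-- PH2: the determinant at an odd prime -/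
def S_odd : Prop := ∀ p : ℕ, 1 ≤ p → ∀ (a : ℤ) (b : ℕ), 1 ≤ b → ∀ q : ℕ, q.Prime → q ≠ 2 →
  padicNorm q ((b : ℚ) ^ (p + 1) * DET p (a / b)) ≤ (q : ℚ) ^ ((p + 1) * Nat.log q (4 * p)) ∧
  (7 * p < 2 * q → q ≤ 4 * p →
    padicNorm q ((b : ℚ) ^ (p + 1) * DET p (a / b)) ≤ (q : ℚ) ^ (8 * p + 2 - 2 * q))

/-! ## The prime 2 -/

/-- PH3: the linear forms at the prime `2` -/
def S_two1 : Prop := ∃ K : ℕ, ∀ p t : ℕ, 1 ≤ p → t ≤ 2 * p →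
  padicNorm 2 (bf p ((X - 2) ^ t)) * 2 ^ (3 * t / 2) ≤ (2 : ℚ) ^ (p + K * (Nat.log 2 p + 1))

/-- PH4: the determinant at the prime `2` -/
def S_two : Prop := ∀ ε : ℝ, 0 < ε → ∀ᶠ p : ℕ in atTop, ∀ (a : ℤ) (b : ℕ), 1 ≤ b →
  DET p (a / b) ≠ 0 →
  Real.log ((padicNorm 2 ((b : ℚ) ^ (p + 1) * DET p (a / b)) : ℚ) : ℝ) ≤
    (Real.log 2 / 6 + ε) * (p : ℝ) ^ 2

/-! ## The sum over the primes -/

/-- the exponent of the odd prime `q` -/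
def ex (p q : ℕ) : ℕ := if 7 * p < 2 * q then 8 * p + 2 - 2 * q else (p + 1) * Nat.log q (4 * p)

/-- PH5 -/
def S_sum : Prop := ∀ ε : ℝ, 0 < ε → ∀ᶠ p : ℕ in atTop,
  ∑ q ∈ (Finset.range (4 * p + 1)).filter (fun q => q.Prime ∧ q ≠ 2),
    (ex p q : ℝ) * Real.log q ≤ (15 / 4 + ε) * (p : ℝ) ^ 2

/-! ## Nonvanishing -/

/-- `(X² - 8)^((p-1)/2)` modulo `p` -/
noncomputable def EE (p : ℕ) : (ZMod p)[X] := (X ^ 2 - 8) ^ ((p - 1) / 2)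

/-- PH6: the homogeneous equation modulo `p` -/
def S_ode : Prop := ∀ (p : ℕ) [Fact p.Prime], 3 < p → ∀ Φ : (ZMod p)[X],
  (X ^ 2 - 8) * derivative Φ + X * Φ = 0 → ∃ g : (ZMod p)[X], Φ = EE p * expand (ZMod p) p g

/-- coefficients of `EE p * R` at the exponents `p j + p - 1` -/
noncomputable def rho (p : ℕ) (R : (ZMod p)[X]) (j : ℕ) : ZMod p :=
  (EE p * R).coeff (p * j + (p - 1))

/-- `x` is `p`-integral and its reduction is `c` -/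
def Red (p : ℕ) (x : ℚ) (c : ZMod p) : Prop :=
  ∃ (n : ℤ) (d : ℕ), ¬ p ∣ d ∧ x * d = n ∧ (n : ZMod p) = c * d

/-- the image in `(ZMod p)[X]` of an integral polynomial -/
noncomputable def ip (p : ℕ) (Q : ℤ[X]) : (ZMod p)[X] := Q.map (Int.castRingHom (ZMod p))

/-- PH7: reduction to level one -/
def S_lev2 : Prop := ∀ (p : ℕ) [Fact p.Prime], 11 ≤ p → ∀ R : ℤ[X], R.natDegree ≤ 2 * p →
  ∃ (k : ℤ) (G : (ZMod p)[X]), kf p (iq R) = k ∧ G.natDegree ≤ 7 ∧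
    LL 2 G = (X - 2) ^ 2 * (X - 3) ^ 4 *
      (C (rho p (ip p R) 0) + C (rho p (ip p R) 1) * X + C (rho p (ip p R) 2) * X ^ 2)
      - C (k : ZMod p) * (X ^ 2 - 8) ^ 2 ∧
    Red p (p * bf p (iq R)) ((-1) ^ ((p - 1) / 2) * (8 * G.eval 2 / 16))

/-- PH8: the solution at level one -/
def S_lev1 : Prop := ∀ (p : ℕ) [Fact p.Prime], 11 ≤ p → ∀ (G : (ZMod p)[X])
  (r0 r1 r2 k : ZMod p), G.natDegree ≤ 7 →
  LL 2 G = (X - 2) ^ 2 * (X - 3) ^ 4 * (C r0 + C r1 * X + C r2 * X ^ 2) - C k * (X ^ 2 - 8) ^ 2 →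
  k = 126 * r0 - 692 * r1 + 3129 * r2 ∧
  6 * (8 * G.eval 2 / 16) = -2375 * r0 + 13044 * r1 - 58980 * r2

/-- PH9: the kernel -/
def S_ker : Prop := ∀ (p : ℕ) [Fact p.Prime], 5 ≤ p → ∀ (V : (ZMod p)[X]) (l0 l1 l2 : ZMod p),
  V.natDegree ≤ p →
  (∀ i ≤ p, l0 * rho p (V * X ^ i) 0 + l1 * rho p (V * X ^ i) 1 + l2 * rho p (V * X ^ i) 2 = 0) →
  l1 ^ 2 ≠ 8 * l0 ^ 2 → l1 ^ 2 ≠ l0 * l2 → V = 0

/-- PH10: two anisotropic forms -/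
def S_quad : Prop := ∀ (p : ℕ) [Fact p.Prime], 10 ^ 6 ≤ p → p % 814728 = 37 → ∀ u v : ZMod p,
  (u ≠ 0 ∨ v ≠ 0) →
  (-692 * u + 13044 * v) ^ 2 ≠ 8 * (126 * u - 2375 * v) ^ 2 ∧
  (-692 * u + 13044 * v) ^ 2 ≠ (126 * u - 2375 * v) * (3129 * u - 58980 * v)

/-- PH11: nonvanishing at all rational points -/
def S_nv : Prop := ∀ p : ℕ, p.Prime → 10 ^ 6 ≤ p → p % 814728 = 37 → ∀ z : ℚ, DET p z ≠ 0

/-! ## Analysis -/

/-- the map `w = x + 2/x` -/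
noncomputable def wx (x : ℂ) : ℂ := x + 2 / x

/-- the modulus of `(w-2)² (w-3)⁴ / (w²-8)²` -/
noncomputable def W1 (w : ℂ) : ℝ := ‖w - 2‖ ^ 2 * ‖w - 3‖ ^ 4 / ‖w ^ 2 - 8‖ ^ 2

/-- `x` lies on the polygonal path with the given vertices -/
def OnPath : List ℂ → ℂ → Prop
  | (a :: b :: l), x => x ∈ segment ℝ a b ∨ OnPath (b :: l) x
  | _, _ => False

/-- the length of the polygonal path -/
noncomputable def plen : List ℂ → ℝ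
  | (a :: b :: l) => ‖b - a‖ + plen (b :: l)
  | _ => 0

/-- admissible points for the paths -/
def Adm (x : ℂ) : Prop := 0 ≤ x.im ∧ 1 ≤ ‖x‖ ∧ x ^ 2 ≠ 2

/-- PH12: the integrals from a real point to `1 + i`, and to a negative real point -/
def S_int : Prop := ∀ (p : ℕ), 1 ≤ p → ∀ (Q : ℚ[X]) (l : List ℂ) (x0 : ℝ) (B : ℝ), 0 < x0 →
  l.head? = some (x0 : ℂ) → 2 ≤ l.length → 0 ≤ B →
  (∀ x, OnPath l x → Adm x ∧ ‖aeval (wx x) Q‖ * W1 (wx x) ^ p ≤ B) →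
  (l.getLast? = some (1 + Complex.I) → |(kf p Q : ℝ) * Real.pi + (bf p Q : ℝ)| ≤ 4 * plen l * B) ∧
  (∀ x1 : ℝ, x1 < 0 → l.getLast? = some (x1 : ℂ) → |(kf p Q : ℝ)| ≤ plen l * B)

/-- data for the archimedean estimate -/
structure Cert where
  /-- the total degree -/
  D : ℕ
  /-- the number of steps -/
  J : ℕ
  /-- the quality of the approximations is `S log 2 / D` -/
  S : ℕ
  /-- the degrees -/
  d : ℕ → ℕ
  /-- the exponents of the bounds -/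
  T : ℕ → ℕ
  /-- the polynomials -/
  B : ℕ → ℚ[X]
  /-- the path from a positive real number to `1 + i` -/
  l1 : List ℂ
  /-- the path from a positive real number to a negative real number -/
  l2 : List ℂ

/-- validity of the data -/
structure Cert.Valid (c : Cert) : Prop where
  J_pos : 0 < c.J
  d_zero : c.d 0 = 0
  d_last : c.d c.J = c.D
  d_lt : ∀ j < c.J, c.d j < c.d (j + 1)
  monic : ∀ j ≤ c.J, (c.B j).Monic ∧ (c.B j).natDegree = c.d j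
  l1_head : ∃ x0 : ℝ, 0 < x0 ∧ c.l1.head? = some (x0 : ℂ)
  l1_last : c.l1.getLast? = some (1 + Complex.I)
  l1_len : 2 ≤ c.l1.length
  l2_head : ∃ x0 : ℝ, 0 < x0 ∧ c.l2.head? = some (x0 : ℂ)
  l2_last : ∃ x1 : ℝ, x1 < 0 ∧ c.l2.getLast? = some (x1 : ℂ)
  l2_len : 2 ≤ c.l2.length
  l1_bd : ∀ x, OnPath c.l1 x → Adm x ∧ ∀ j ≤ c.J,
    ‖aeval (wx x) (c.B j)‖ ^ 2 * W1 (wx x) ^ c.D * 2 ^ c.T j ≤ 1
  l2_bd : ∀ x, OnPath c.l2 x → Adm x ∧ ∀ j ≤ c.J,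
    ‖aeval (wx x) (c.B j)‖ ^ 2 * W1 (wx x) ^ c.D * 2 ^ c.T j ≤ 2 ^ c.S

/-- the quality of the approximations -/
noncomputable def Cert.s (c : Cert) : ℝ := c.S * Real.log 2 / c.D

/-- the archimedean exponent -/
noncomputable def Cert.E (c : Cert) : ℝ :=
  (∑ j ∈ Finset.range c.J, ((c.d (j + 1) : ℝ) - c.d j) * ((c.T j : ℝ) + c.T (j + 1)) / 2) *
    Real.log 2 / (c.D : ℝ) ^ 2

/-- PH13: the archimedean estimate -/
def S_arch : Prop := ∀ c : Cert, c.Valid → ∀ ε : ℝ, 0 < ε → ∀ᶠ p : ℕ in atTop, ∀ z : ℚ,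
  |(z : ℝ) - Real.pi| ≤ Real.exp (-(c.s * p)) → DET p z ≠ 0 →
  Real.log |((DET p z : ℚ) : ℝ)| ≤ (-c.E + ε) * (p : ℝ) ^ 2

/-! ## Primes -/

/-- PH14 -/
def S_Z : Prop := ∀ ε : ℝ, 0 < ε → ∃ L0 : ℝ, ∀ L : ℝ, L0 ≤ L →
  ∃ p : ℕ, p.Prime ∧ p % 814728 = 37 ∧ L < p ∧ (p : ℝ) ≤ (1 + ε) * L

/-- the conclusion -/
def S_mu (μ : ℝ) : Prop := ∃ q0 : ℕ, ∀ q : ℕ, q0 ≤ q → ∀ a : ℤ, (q : ℝ) ^ (-μ) ≤ |Real.pi - a / q|

end Pool.Agent.Y795.PiH
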